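import Pool.Agent.NH57.SQ.XL.Stm

/-!
# XS-21: the number of the classes `d₁`, `D = 3` modulo `4`
-/

set_option autoImplicit false
set_option linter.unusedVariables false

open scoped Classical

namespace Pool.Agent.NH57.SQ.XL

open Finset
open Pool.Agent.Y703.CQ (nr)
open Pool.Agent.NH4.XG (nx Ram)

namespace ASb

/-- the quadratic symbol, additively -/
noncomputable def cc (q : ℕ) (x : ℤ) : ZMod 2 := if jacobiSym x q = 1 then 0 else 1

/-- `1` if and only if `p = 3` modulo `4` -/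
def ee (p : ℕ) : ZMod 2 := if p % 4 = 3 then 1 else 0

theorem z2 (a : ZMod 2) : a + a = 0 := CharTwo.add_self_eq_zero a

theorem z2' (a : ZMod 2) : a * a = a := by
  revert a; decide

theorem js {q : ℕ} (hq : q.Prime) {x : ℤ} (hx : ¬ (q : ℤ) ∣ x) :
    jacobiSym x q = 1 ∨ jacobiSym x q = -1 := by
  apply jacobiSym.eq_one_or_neg_one
  rw [Int.gcd_comm, Int.gcd_eq_natAbs, Int.natAbs_natCast]
  refine (Nat.Prime.coprime_iff_not_dvd hq).2 fun h => hx ?_
  exact Int.natCast_dvd.2 h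

theorem cc_zero {q : ℕ} {x : ℤ} : cc q x = 0 ↔ jacobiSym x q = 1 := by
  unfold cc
  split_ifs with h
  · simp [h]
  · simp [h]

theorem cc_mul {q : ℕ} (hq : q.Prime) {x y : ℤ} (hx : ¬ (q : ℤ) ∣ x) (hy : ¬ (q : ℤ) ∣ y) :
    cc q (x * y) = cc q x + cc q y := by
  unfold cc
  rw [jacobiSym.mul_left]
  rcases js hq hx with h1 | h1 <;> rcases js hq hy with h2 | h2 <;> rw [h1, h2] <;> norm_num
  exact (z2 1).symm

theorem cc_neg_one {q : ℕ} (hq : q.Prime) (hq2 : q ≠ 2) : cc q (-1) = ee q := by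
  have ho : Odd q := hq.odd_of_ne_two hq2
  unfold cc ee
  rw [jacobiSym.at_neg_one ho]
  rcases Nat.odd_mod_four_iff.1 (Nat.odd_iff.1 ho) with h | h
  · rw [ZMod.χ₄_nat_one_mod_four h]
    simp [h]
  · rw [ZMod.χ₄_nat_three_mod_four h]
    simp [h]

theorem ndvd {p q : ℕ} (hp : p.Prime) (hq : q.Prime) (h : p ≠ q) : ¬ (q : ℤ) ∣ (p : ℤ) := by
  rw [Int.natCast_dvd_natCast]
  exact fun h' => h ((Nat.prime_dvd_prime_iff_eq hq hp).1 h').symm

theorem ndvd1 {q : ℕ} (hq : q.Prime) : ¬ (q : ℤ) ∣ (-1 : ℤ) := by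
  intro h
  have h1 : (q : ℤ) ∣ 1 := by simpa using h
  have h2 := Int.natCast_dvd_natCast.1 (by exact_mod_cast h1 : ((q : ℕ) : ℤ) ∣ ((1 : ℕ) : ℤ))
  exact hq.one_lt.ne' (Nat.dvd_one.1 h2)

theorem ps_natAbs (p : ℕ) : (ps p).natAbs = p := by
  unfold ps
  split_ifs <;> simp

theorem ps_eq {p : ℕ} (hp : p.Prime) (hp2 : p ≠ 2) :
    (ee p = 0 ∧ ps p = p ∧ p % 4 = 1) ∨ (ee p = 1 ∧ ps p = -1 * p ∧ p % 4 = 3) := by
  have ho : Odd p := hp.odd_of_ne_two hp2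
  rcases Nat.odd_mod_four_iff.1 (Nat.odd_iff.1 ho) with h | h
  · left
    refine ⟨?_, ?_, h⟩
    · unfold ee; rw [if_neg (by omega)]
    · unfold ps; rw [if_pos h]
  · right
    refine ⟨?_, ?_, h⟩
    · unfold ee; rw [if_pos h]
    · unfold ps; rw [if_neg (by omega)]; ring

theorem ps_ndvd {p q : ℕ} (hp : p.Prime) (hq : q.Prime) (h : p ≠ q) : ¬ (q : ℤ) ∣ ps p := by
  intro h'
  have := Int.natCast_dvd.1 h'
  rw [ps_natAbs] at this
  exact h ((Nat.prime_dvd_prime_iff_eq hq hp).1 this).symm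

theorem cc_ps {p q : ℕ} (hp : p.Prime) (hq : q.Prime) (hp2 : p ≠ 2) (hq2 : q ≠ 2) (h : p ≠ q) :
    cc q (ps p) = cc p (q : ℤ) := by
  have hop : Odd p := hp.odd_of_ne_two hp2
  have hoq : Odd q := hq.odd_of_ne_two hq2
  rcases ps_eq hp hp2 with ⟨-, h1, h2⟩ | ⟨-, h1, h2⟩
  · rw [h1]
    unfold cc
    rw [jacobiSym.quadratic_reciprocity_one_mod_four h2 hoq]
  · rw [h1]
    unfold cc
    rw [jacobiSym.mul_left]
    rcases Nat.odd_mod_four_iff.1 (Nat.odd_iff.1 hoq) with h3 | h3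
    · rw [jacobiSym.at_neg_one hoq, ZMod.χ₄_nat_one_mod_four h3, one_mul,
        jacobiSym.quadratic_reciprocity_one_mod_four' hop h3]
    · rw [jacobiSym.at_neg_one hoq, ZMod.χ₄_nat_three_mod_four h3,
        jacobiSym.quadratic_reciprocity_three_mod_four h2 h3]
      norm_num

theorem nr_eq {p : ℕ} (hp : p.Prime) (hp2 : p ≠ 2) {n : ℕ} (hn : ¬ p ∣ n) :
    nr p n = cc p (n : ℤ) := by
  have : Fact p.Prime := ⟨hp⟩
  unfold nr cc
  have h1 : ((n : ℤ) : ZMod p) ≠ 0 := by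
    push_cast
    rw [Ne, ZMod.natCast_eq_zero_iff]
    exact hn
  have h2 : jacobiSym (n : ℤ) p = 1 ↔ IsSquare (n : ZMod p) := by
    rw [← jacobiSym.legendreSym.to_jacobiSym, legendreSym.eq_one_iff p h1]
    push_cast
    rfl
  by_cases h3 : IsSquare (n : ZMod p)
  · rw [if_pos h3, if_pos (h2.2 h3)]
  · rw [if_neg h3, if_neg (fun h => h3 (h2.1 h))]

theorem nr_eq' {p q : ℕ} (hp : p.Prime) (hq : q.Prime) (hp2 : p ≠ 2) (h : p ≠ q) :
    nr p q = cc p (q : ℤ) :=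
  nr_eq hp hp2 fun h' => h ((Nat.prime_dvd_prime_iff_eq hp hq).1 h')

theorem cc_ps' {p q : ℕ} (hp : p.Prime) (hq : q.Prime) (hp2 : p ≠ 2) (hq2 : q ≠ 2) (h : p ≠ q) :
    cc q (ps p) = nr p q := by
  rw [nr_eq' hp hq hp2 h, cc_ps hp hq hp2 hq2 h]

theorem rec {p q : ℕ} (hp : p.Prime) (hq : q.Prime) (hp2 : p ≠ 2) (hq2 : q ≠ 2) (h : p ≠ q) :
    nr p q + nr q p = ee p * ee q := by
  rw [← cc_ps' hp hq hp2 hq2 h, nr_eq' hq hp hq2 h.symm]
  rcases ps_eq hp hp2 with ⟨h1, h2, -⟩ | ⟨h1, h2, -⟩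
  · rw [h1, h2, z2, zero_mul]
  · rw [h1, h2, cc_mul hq (ndvd1 hq) (ndvd hp hq h), cc_neg_one hq hq2, one_mul, add_assoc, z2,
      add_zero]

theorem prod_ndvd {A : Finset ℕ} {q : ℕ} (hq : q.Prime) (hA : ∀ p ∈ A, p.Prime ∧ p ≠ q) :
    ¬ (q : ℤ) ∣ ∏ p ∈ A, ps p := by
  intro h
  obtain ⟨p, hp, h1⟩ := (Nat.prime_iff_prime_int.1 hq).exists_mem_finset_dvd h
  exact ps_ndvd (hA p hp).1 hq (hA p hp).2 h1

theorem cc_prod {A : Finset ℕ} {q : ℕ} (hq : q.Prime) (hq2 : q ≠ 2)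
    (hA : ∀ p ∈ A, p.Prime ∧ p ≠ 2 ∧ p ≠ q) : cc q (∏ p ∈ A, ps p) = ∑ p ∈ A, nr p q := by
  classical
  induction A using Finset.induction_on with
  | empty =>
    rw [Finset.prod_empty, Finset.sum_empty, cc_zero]
    exact jacobiSym.one_left q
  | insert a A ha ih =>
    have h1 := hA a (Finset.mem_insert_self a A)
    have h2 : ∀ p ∈ A, p.Prime ∧ p ≠ 2 ∧ p ≠ q := fun p hp => hA p (Finset.mem_insert_of_mem hp)
    rw [Finset.prod_insert ha, Finset.sum_insert ha,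
      cc_mul hq (ps_ndvd h1.1 hq h1.2.2) (prod_ndvd hq fun p hp => ⟨(h2 p hp).1, (h2 p hp).2.2⟩),
      ih h2, cc_ps' h1.1 hq h1.2.1 hq2 h1.2.2]

theorem ps_mod {p : ℕ} (hp : p.Prime) (hp2 : p ≠ 2) : ps p % 4 = 1 := by
  rcases ps_eq hp hp2 with ⟨-, h1, h2⟩ | ⟨-, h1, h2⟩ <;> rw [h1] <;> omega

theorem ps_mod8 {p : ℕ} (hp : p.Prime) (hp2 : p ≠ 2) :
    (nr p 2 = 0 ∧ ps p % 8 = 1) ∨ (nr p 2 = 1 ∧ ps p % 8 = 5) := by
  have : Fact p.Prime := ⟨hp⟩
  have h1 := ZMod.exists_sq_eq_two_iff (p := p) hp2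
  have h3 : nr p 2 = if p % 8 = 1 ∨ p % 8 = 7 then 0 else 1 := by
    unfold nr
    push_cast
    simp only [h1]
  rw [h3]
  rcases ps_eq hp hp2 with ⟨-, h4, h5⟩ | ⟨-, h4, h5⟩
  · rw [h4]
    by_cases h6 : p % 8 = 1
    · left; rw [if_pos (Or.inl h6)]; exact ⟨rfl, by omega⟩
    · right; rw [if_neg (by omega)]; exact ⟨rfl, by omega⟩
  · rw [h4]
    by_cases h6 : p % 8 = 7
    · left; rw [if_pos (Or.inr h6)]; exact ⟨rfl, by omega⟩
    · right; rw [if_neg (by omega)]; exact ⟨rfl, by omega⟩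

theorem prod_mod8 {A : Finset ℕ} (hA : ∀ p ∈ A, p.Prime ∧ p ≠ 2) :
    (∑ p ∈ A, nr p 2 = 0 ∧ (∏ p ∈ A, ps p) % 8 = 1) ∨
      (∑ p ∈ A, nr p 2 = 1 ∧ (∏ p ∈ A, ps p) % 8 = 5) := by
  classical
  induction A using Finset.induction_on with
  | empty =>
    left
    simp
  | insert a A ha ih =>
    have h1 := hA a (Finset.mem_insert_self a A)
    have h2 := ih fun p hp => hA p (Finset.mem_insert_of_mem hp)
    rw [Finset.prod_insert ha, Finset.sum_insert ha, Int.mul_emod]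
    rcases ps_mod8 h1.1 h1.2 with ⟨h3, h4⟩ | ⟨h3, h4⟩ <;> rcases h2 with ⟨h5, h6⟩ | ⟨h5, h6⟩ <;>
      rw [h3, h4, h5, h6]
    · left; norm_num
    · right; norm_num
    · right; norm_num
    · left; exact ⟨z2 1, by norm_num⟩

theorem prod_mod4 {A : Finset ℕ} (hA : ∀ p ∈ A, p.Prime ∧ p ≠ 2) : (∏ p ∈ A, ps p) % 4 = 1 := by
  rcases prod_mod8 hA with ⟨-, h⟩ | ⟨-, h⟩ <;> omega

theorem prod_natAbs (A : Finset ℕ) : (∏ p ∈ A, ps p).natAbs = ∏ p ∈ A, p := by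
  classical
  induction A using Finset.induction_on with
  | empty => rfl
  | insert a A ha ih => rw [Finset.prod_insert ha, Finset.prod_insert ha, Int.natAbs_mul, ih, ps_natAbs]

/-- the sign -/
theorem prod_sign {A : Finset ℕ} (hA : ∀ p ∈ A, p.Prime ∧ p ≠ 2) :
    (∑ p ∈ A, ee p = 0 ∧ ∏ p ∈ A, ps p = ((∏ p ∈ A, p : ℕ) : ℤ)) ∨
      (∑ p ∈ A, ee p = 1 ∧ ∏ p ∈ A, ps p = -((∏ p ∈ A, p : ℕ) : ℤ)) := by
  classical
  induction A using Finset.induction_on with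
  | empty =>
    left
    simp
  | insert a A ha ih =>
    have h1 := hA a (Finset.mem_insert_self a A)
    have h2 := ih fun p hp => hA p (Finset.mem_insert_of_mem hp)
    rw [Finset.prod_insert ha, Finset.sum_insert ha, Finset.prod_insert ha]
    push_cast at h2 ⊢
    rcases ps_eq h1.1 h1.2 with ⟨h3, h4, -⟩ | ⟨h3, h4, -⟩ <;> rcases h2 with ⟨h5, h6⟩ | ⟨h5, h6⟩ <;>
      rw [h3, h4, h5, h6]
    · left; exact ⟨by norm_num, rfl⟩
    · right; exact ⟨by norm_num, by ring⟩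
    · right; exact ⟨by norm_num, by ring⟩
    · left; exact ⟨z2 1, by ring⟩

/-- the column sums -/
theorem col {S : Finset ℕ} (hS : ∀ p ∈ S, p.Prime ∧ p ≠ 2) (he : ∑ p ∈ S, ee p = 0) {q : ℕ}
    (hq : q ∈ S) : ∑ p ∈ S.erase q, (nr p q + nr q p) = ee q := by
  have h1 : ∑ p ∈ S.erase q, (nr p q + nr q p) = (∑ p ∈ S.erase q, ee p) * ee q := by
    rw [Finset.sum_mul]
    refine Finset.sum_congr rfl fun p hp => ?_
    rw [Finset.mem_erase] at hp
    exact rec (hS p hp.2).1 (hS q hq).1 (hS p hp.2).2 (hS q hq).2 hp.1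
  have h2 : ∑ p ∈ S.erase q, ee p = ee q := by
    have := Finset.add_sum_erase S ee hq
    rw [he] at this
    have h3 : ee q + (ee q + ∑ p ∈ S.erase q, ee p) = ee q + 0 := by rw [this]
    rwa [← add_assoc, z2, zero_add, add_zero] at h3
  rw [h1, h2, z2']

theorem colM {S : Finset ℕ} (hS : ∀ p ∈ S, p.Prime ∧ p ≠ 2) (he : ∑ p ∈ S, ee p = 0) {q : ℕ}
    (hq : q ∈ S) : ∑ p ∈ S, me S p q = ee q := by
  rw [← Finset.add_sum_erase S _ hq]
  have h1 : me S q q = ∑ q' ∈ S.erase q, nr q q' := by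
    unfold me; rw [if_pos rfl]
  have h2 : ∑ p ∈ S.erase q, me S p q = ∑ p ∈ S.erase q, nr p q := by
    refine Finset.sum_congr rfl fun p hp => ?_
    rw [Finset.mem_erase] at hp
    unfold me
    rw [if_neg (Ne.symm hp.1)]
  rw [h1, h2, ← Finset.sum_add_distrib, ← col hS he hq]
  exact Finset.sum_congr rfl fun p _ => add_comm _ _


/-! ### the map -/

/-- the sign -/
noncomputable def us (T : Finset ℕ) : ℤ := if 2 ∈ T then -1 else 1

/-- the class -/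
noncomputable def FF (T : Finset ℕ) : ℤ := us T * ∏ p ∈ T.erase 2, ps p

/-- the sign, additively -/
noncomputable def sT (T : Finset ℕ) : ZMod 2 := if 2 ∈ T then 1 else 0

theorem us_cases (T : Finset ℕ) : (2 ∈ T ∧ us T = -1 ∧ sT T = 1) ∨ (2 ∉ T ∧ us T = 1 ∧ sT T = 0) := by
  unfold us sT
  by_cases h : 2 ∈ T
  · left; simp [h]
  · right; simp [h]

theorem us_natAbs (T : Finset ℕ) : (us T).natAbs = 1 := by
  rcases us_cases T with ⟨-, h, -⟩ | ⟨-, h, -⟩ <;> rw [h] <;> rfl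

theorem FF_natAbs (T : Finset ℕ) : (FF T).natAbs = ∏ p ∈ T.erase 2, p := by
  unfold FF
  rw [Int.natAbs_mul, us_natAbs, one_mul, prod_natAbs]

theorem cc_us {q : ℕ} (hq : q.Prime) (hq2 : q ≠ 2) (T : Finset ℕ) : cc q (us T) = sT T * ee q := by
  rcases us_cases T with ⟨-, h, h'⟩ | ⟨-, h, h'⟩ <;> rw [h, h']
  · rw [cc_neg_one hq hq2, one_mul]
  · rw [zero_mul, cc_zero]
    exact jacobiSym.one_left q

theorem us_ndvd {q : ℕ} (hq : q.Prime) (T : Finset ℕ) : ¬ (q : ℤ) ∣ us T := by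
  intro h
  have := Int.natCast_dvd.1 h
  rw [us_natAbs] at this
  exact hq.one_lt.ne' (Nat.dvd_one.1 this)

theorem sum_mM {S T : Finset ℕ} (h2 : 2 ∉ S) (q : ℕ) :
    ∑ p ∈ T, mM S p q = sT T * ∑ p ∈ S, me S p q + ∑ p ∈ T.erase 2, me S p q := by
  have h1 : ∀ A : Finset ℕ, 2 ∉ A → ∑ p ∈ A, mM S p q = ∑ p ∈ A, me S p q := by
    intro A hA
    refine Finset.sum_congr rfl fun p hp => ?_
    unfold mM
    rw [if_neg]
    rintro rfl
    exact hA hp
  rcases us_cases T with ⟨h, -, h'⟩ | ⟨h, -, h'⟩ <;> rw [h']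
  · rw [← Finset.add_sum_erase T _ h, h1 _ (Finset.notMem_erase 2 T), one_mul]
    congr 1
    unfold mM
    rw [if_pos rfl, Finset.erase_eq_of_notMem h2]
  · rw [h1 T h, Finset.erase_eq_of_notMem h, zero_mul, zero_add]

section

variable {D : ℤ} {S : Finset ℕ} (hS : ∀ p ∈ S, p.Prime ∧ p ≠ 2) (hD : D = -∏ p ∈ S, ps p)
  (he : ∑ p ∈ S, ee p = 0) {T : Finset ℕ} (hT : T ⊆ insert 2 S)

include hT in
theorem sub : T.erase 2 ⊆ S := by
  intro p hp
  rw [Finset.mem_erase] at hp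
  exact (Finset.mem_insert.1 (hT hp.2)).resolve_left hp.1

include hS hT in
theorem dvd_FF {q : ℕ} (hq : q.Prime) : (q : ℤ) ∣ FF T ↔ q ∈ T.erase 2 := by
  rw [Int.natCast_dvd, FF_natAbs]
  constructor
  · intro h
    obtain ⟨p, hp, h1⟩ := (Nat.prime_iff.1 hq).exists_mem_finset_dvd h
    have := (Nat.prime_dvd_prime_iff_eq hq (hS p (sub hT hp)).1).1 h1
    rwa [this]
  · intro h
    exact Finset.dvd_prod_of_mem _ h

include hS he hT in
theorem eq_q {q : ℕ} (hq : q ∈ S) (hq' : q ∉ T) :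
    cc q (FF T) = 0 ↔ ∑ p ∈ T, mM S p q = 0 := by
  have h2 : 2 ∉ S := fun h => (hS 2 h).2 rfl
  obtain ⟨hqp, hq2⟩ := hS q hq
  have hA : ∀ p ∈ T.erase 2, p.Prime ∧ p ≠ 2 ∧ p ≠ q := fun p hp =>
    ⟨(hS p (sub hT hp)).1, (hS p (sub hT hp)).2, by
      rintro rfl
      exact hq' (Finset.mem_of_mem_erase hp)⟩
  have h1 : ∑ p ∈ T.erase 2, me S p q = ∑ p ∈ T.erase 2, nr p q := by
    refine Finset.sum_congr rfl fun p hp => ?_
    unfold me
    rw [if_neg (Ne.symm (hA p hp).2.2)]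
  rw [sum_mM h2, colM hS he hq, h1]
  unfold FF
  rw [cc_mul hqp (us_ndvd hqp T) (prod_ndvd hqp fun p hp => ⟨(hA p hp).1, (hA p hp).2.2⟩),
    cc_us hqp hq2, cc_prod hqp hq2 hA]

include hS hD he hT in
theorem eq_q' {q : ℕ} (hq : q ∈ S) (hq' : q ∈ T) :
    cc q ((D / q) * (FF T / q)) = 0 ↔ ∑ p ∈ T, mM S p q = 0 := by
  have h2 : 2 ∉ S := fun h => (hS 2 h).2 rfl
  obtain ⟨hqp, hq2⟩ := hS q hq
  have hqT : q ∈ T.erase 2 := Finset.mem_erase.2 ⟨hq2, hq'⟩
  have hA : ∀ p ∈ (T.erase 2).erase q, p.Prime ∧ p ≠ 2 ∧ p ≠ q := fun p hp =>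
    ⟨(hS p (sub hT (Finset.mem_of_mem_erase hp))).1,
      (hS p (sub hT (Finset.mem_of_mem_erase hp))).2, Finset.ne_of_mem_erase hp⟩
  have hB : ∀ p ∈ S.erase q, p.Prime ∧ p ≠ 2 ∧ p ≠ q := fun p hp =>
    ⟨(hS p (Finset.mem_of_mem_erase hp)).1, (hS p (Finset.mem_of_mem_erase hp)).2,
      Finset.ne_of_mem_erase hp⟩
  obtain ⟨ε, h3, h4⟩ : ∃ ε : ℤ, ps q = q * ε ∧ ε * ε = 1 := by
    rcases ps_eq hqp hq2 with ⟨-, h, -⟩ | ⟨-, h, -⟩
    · exact ⟨1, by rw [h]; ring, by norm_num⟩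
    · exact ⟨-1, by rw [h]; ring, by norm_num⟩
  have hq0 : (q : ℤ) ≠ 0 := by exact_mod_cast hqp.ne_zero
  have e1 : D / q = -(ε * ∏ p ∈ S.erase q, ps p) := by
    rw [hD, ← Finset.mul_prod_erase S _ hq, h3]
    rw [show -(q * ε * ∏ p ∈ S.erase q, ps p) = q * (-(ε * ∏ p ∈ S.erase q, ps p)) by ring]
    exact Int.mul_ediv_cancel_left _ hq0
  have e2 : FF T / q = us T * (ε * ∏ p ∈ (T.erase 2).erase q, ps p) := by
    unfold FF
    rw [← Finset.mul_prod_erase (T.erase 2) _ hqT, h3]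
    rw [show us T * (q * ε * ∏ p ∈ (T.erase 2).erase q, ps p) =
      q * (us T * (ε * ∏ p ∈ (T.erase 2).erase q, ps p)) by ring]
    exact Int.mul_ediv_cancel_left _ hq0
  have e3 : (D / q) * (FF T / q) = -1 * (us T * ((∏ p ∈ S.erase q, ps p) *
      ∏ p ∈ (T.erase 2).erase q, ps p)) := by
    rw [e1, e2]
    linear_combination (-(us T) * (∏ p ∈ S.erase q, ps p) * ∏ p ∈ (T.erase 2).erase q, ps p) * h4
  have n1 := prod_ndvd hqp fun p hp => ⟨(hA p hp).1, (hA p hp).2.2⟩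
  have n2 := prod_ndvd hqp fun p hp => ⟨(hB p hp).1, (hB p hp).2.2⟩
  have hI := Nat.prime_iff_prime_int.1 hqp
  have n3 : ¬ (q : ℤ) ∣ (∏ p ∈ S.erase q, ps p) * ∏ p ∈ (T.erase 2).erase q, ps p := fun h =>
    (hI.dvd_or_dvd h).elim n2 n1
  have n4 : ¬ (q : ℤ) ∣ us T * ((∏ p ∈ S.erase q, ps p) * ∏ p ∈ (T.erase 2).erase q, ps p) :=
    fun h => (hI.dvd_or_dvd h).elim (us_ndvd hqp T) n3
  have h1 : ∑ p ∈ T.erase 2, me S p q = ∑ p ∈ S.erase q, nr q p +
      ∑ p ∈ (T.erase 2).erase q, nr p q := by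
    rw [← Finset.add_sum_erase _ _ hqT]
    congr 1
    · unfold me
      rw [if_pos rfl]
    · refine Finset.sum_congr rfl fun p hp => ?_
      unfold me
      rw [if_neg (Ne.symm (hA p hp).2.2)]
  have hc := col hS he hq
  rw [Finset.sum_add_distrib] at hc
  rw [e3, cc_mul hqp (ndvd1 hqp) n4, cc_mul hqp (us_ndvd hqp T) n3, cc_mul hqp n2 n1,
    cc_neg_one hqp hq2, cc_us hqp hq2, cc_prod hqp hq2 hA, cc_prod hqp hq2 hB, sum_mM h2,
    colM hS he hq, h1]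
  have key : ee q + (sT T * ee q + (∑ p ∈ S.erase q, nr p q + ∑ p ∈ (T.erase 2).erase q, nr p q)) =
      sT T * ee q + (∑ p ∈ S.erase q, nr q p + ∑ p ∈ (T.erase 2).erase q, nr p q) := by
    have h5 : ee q + ∑ p ∈ S.erase q, nr p q = ∑ p ∈ S.erase q, nr q p := by
      rw [← hc]
      have := z2 (∑ p ∈ S.erase q, nr p q)
      linear_combination this
    linear_combination h5
  rw [key]

include hS hD hT in
theorem eq_2 (hD4 : D % 4 = 3) : A2 D (FF T) ↔ ∑ p ∈ T, mM S p 2 = 0 := by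
  have h2 : 2 ∉ S := fun h => (hS 2 h).2 rfl
  have m1 : ∀ A ⊆ S, ∑ p ∈ A, me S p 2 = ∑ p ∈ A, nr p 2 := by
    intro A hA
    refine Finset.sum_congr rfl fun p hp => ?_
    unfold me
    rw [if_neg (Ne.symm (hS p (hA hp)).2)]
  rw [sum_mM h2, m1 S subset_rfl, m1 _ (sub hT)]
  have hA : A2 D (FF T) ↔ (FF T % 8 = 1 ∨ FF T % 8 = D % 8) := by
    unfold A2
    omega
  rw [hA, hD]
  have a1 := prod_mod8 hS
  have a2 := prod_mod8 (A := T.erase 2) fun p hp => hS p (sub hT hp)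
  unfold FF
  have o1 : (1 : ZMod 2) ≠ 0 := one_ne_zero
  rcases us_cases T with ⟨-, h, h'⟩ | ⟨-, h, h'⟩ <;> rw [h, h'] <;>
    rcases a1 with ⟨b1, b2⟩ | ⟨b1, b2⟩ <;> rcases a2 with ⟨c1, c2⟩ | ⟨c1, c2⟩ <;> rw [b1, c1]
  · exact iff_of_true (by omega) (by ring)
  · exact iff_of_false (by omega) (by simpa using o1)
  · exact iff_of_false (by omega) (by simpa using o1)
  · exact iff_of_true (by omega) (by rw [one_mul]; exact z2 1)
  · exact iff_of_true (by omega) (by ring)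
  · exact iff_of_false (by omega) (by simpa using o1)
  · exact iff_of_true (by omega) (by simp)
  · exact iff_of_false (by omega) (by simpa using o1)

end

theorem sqf {A : Finset ℕ} (hA : ∀ p ∈ A, p.Prime) : Squarefree (∏ p ∈ A, p) := by
  classical
  induction A using Finset.induction_on with
  | empty => exact squarefree_one
  | insert a A ha ih =>
    have h1 := hA a (Finset.mem_insert_self a A)
    have h2 : ∀ p ∈ A, p.Prime := fun p hp => hA p (Finset.mem_insert_of_mem hp)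
    rw [Finset.prod_insert ha, Nat.squarefree_mul_iff]
    refine ⟨?_, h1.squarefree, ih h2⟩
    refine Nat.Coprime.prod_right fun p hp => (Nat.coprime_primes h1 (h2 p hp)).2 ?_
    rintro rfl
    exact ha hp

end ASb

open ASb in
/-- AS, `D = 3` modulo `4` -/
theorem t_ASb : S_AS 3 := by
  intro hSQ D hD0 hDs hD4
  set S := D.natAbs.primeFactors with hSd
  have hDn : Squarefree D.natAbs := Int.squarefree_natAbs.2 hDs
  have hN : ∏ p ∈ S, p = D.natAbs := Nat.prod_primeFactors_of_squarefree hDn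
  have hS : ∀ p ∈ S, p.Prime ∧ p ≠ 2 := by
    intro p hp
    have h1 := Nat.mem_primeFactors.1 hp
    refine ⟨h1.1, ?_⟩
    rintro rfl
    have := h1.2.1
    omega
  have h2 : 2 ∉ S := fun h => (hS 2 h).2 rfl
  have hND : ((∏ p ∈ S, p : ℕ) : ℤ) = -D := by
    rw [hN]
    omega
  obtain ⟨he, hD⟩ : ∑ p ∈ S, ee p = 0 ∧ D = -∏ p ∈ S, ps p := by
    have h4 := prod_mod4 hS
    rcases prod_sign hS with ⟨h5, h6⟩ | ⟨h5, h6⟩
    · exact ⟨h5, by rw [h6, hND]; ring⟩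
    · rw [h6, hND] at h4
      omega
  have hRam : Ram S = insert 2 S := by
    unfold Ram
    rw [if_neg]
    omega
  have dvdD : ∀ p : ℕ, p.Prime → ((p : ℤ) ∣ D ↔ p ∈ S) := by
    intro p hp
    rw [Int.natCast_dvd, hSd, Nat.mem_primeFactors]
    exact ⟨fun h => ⟨hp, h, by omega⟩, fun h => h.2.1⟩
  have sqF : ∀ T ⊆ insert 2 S, Squarefree (FF T) := by
    intro T hT
    rw [← Int.squarefree_natAbs, FF_natAbs]
    exact sqf fun p hp => (hS p (sub hT hp)).1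
  have mem : ∀ T ⊆ insert 2 S, (FF T ∈ AS D ↔ ∀ q ∈ insert 2 S, ∑ p ∈ T, mM S p q = 0) := by
    intro T hT
    have hq : ∀ q ∈ S, ∀ [Fact q.Prime], (H1 q D (FF T) ↔ ∑ p ∈ T, mM S p q = 0) := by
      intro q hq _
      rw [(hSQ q D (FF T) (hS q hq).2 hDs (sqF T hT) ((dvdD q (hS q hq).1).2 hq)).1]
      by_cases h : q ∈ T
      · rw [if_pos ((dvd_FF hS hT (hS q hq).1).2 (Finset.mem_erase.2 ⟨(hS q hq).2, h⟩)), ← cc_zero]
        exact eq_q' hS hD he hT hq h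
      · rw [if_neg (fun h' => h (Finset.mem_of_mem_erase ((dvd_FF hS hT (hS q hq).1).1 h'))),
          ← cc_zero]
        exact eq_q hS he hT hq h
    constructor
    · rintro ⟨-, h3, h4⟩ q hqs
      rcases Finset.mem_insert.1 hqs with rfl | h5
      · exact (eq_2 hS hD hT hD4).1 h3
      · have : Fact q.Prime := ⟨(hS q h5).1⟩
        exact (hq q h5).1 ((h4 q (hS q h5).2).1 ((dvdD q (hS q h5).1).2 h5))
    · intro H
      refine ⟨sqF T hT, (eq_2 hS hD hT hD4).2 (H 2 (Finset.mem_insert_self 2 S)), ?_⟩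
      intro p hp hp2
      refine ⟨fun h => ?_, fun h h' => ?_⟩
      · have hpS := (dvdD p hp.out).1 h
        exact (hq p hpS).2 (H p (Finset.mem_insert_of_mem hpS))
      · exact h ((dvdD p hp.out).2 (sub hT ((dvd_FF hS hT hp.out).1 h')))
  have surj : ∀ d ∈ AS D, ∃ T ⊆ insert 2 S, FF T = d := by
    rintro d ⟨h3, h4, h5⟩
    have hodd : ¬ 2 ∣ d.natAbs := by
      unfold A2 at h4
      omega
    have h6 : d.natAbs.primeFactors ⊆ S := by
      intro p hp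
      obtain ⟨h7, h8, -⟩ := Nat.mem_primeFactors.1 hp
      have : Fact p.Prime := ⟨h7⟩
      by_contra hcon
      refine (h5 p ?_).2 (fun h => hcon ((dvdD p h7).1 h)) (Int.natCast_dvd.2 h8)
      rintro rfl
      exact hodd h8
    have h9 : (∏ p ∈ d.natAbs.primeFactors, ps p).natAbs = d.natAbs := by
      rw [prod_natAbs]
      exact Nat.prod_primeFactors_of_squarefree (Int.squarefree_natAbs.2 h3)
    have h10 : 2 ∉ d.natAbs.primeFactors := fun h => h2 (h6 h)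
    rcases Int.natAbs_eq_natAbs_iff.1 h9 with h | h
    · refine ⟨d.natAbs.primeFactors, h6.trans (Finset.subset_insert _ _), ?_⟩
      unfold FF us
      rw [if_neg h10, Finset.erase_eq_of_notMem h10, one_mul]
      exact h
    · refine ⟨insert 2 d.natAbs.primeFactors, Finset.insert_subset_insert _ h6, ?_⟩
      unfold FF us
      rw [if_pos (Finset.mem_insert_self _ _), Finset.erase_insert h10, h]
      ring
  have inj : ∀ T ⊆ insert 2 S, ∀ T' ⊆ insert 2 S, FF T = FF T' → T = T' := by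
    intro T hT T' hT' h
    have h3 : T.erase 2 = T'.erase 2 := by
      have h4 : ∏ p ∈ T.erase 2, p = ∏ p ∈ T'.erase 2, p := by
        rw [← FF_natAbs, ← FF_natAbs, h]
      rw [← Nat.primeFactors_prod fun p hp => (hS p (sub hT hp)).1,
        ← Nat.primeFactors_prod fun p hp => (hS p (sub hT' hp)).1, h4]
    have h5 : us T = us T' := by
      unfold FF at h
      rw [h3] at h
      refine mul_right_cancel₀ ?_ h
      intro h0
      have h6 := prod_mod4 (A := T'.erase 2) fun p hp => hS p (sub hT' hp)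
      rw [h0] at h6
      norm_num at h6
    ext p
    by_cases hp : p = 2
    · subst hp
      rcases us_cases T with ⟨g, g', -⟩ | ⟨g, g', -⟩ <;>
        rcases us_cases T' with ⟨k, k', -⟩ | ⟨k, k', -⟩
      · exact iff_of_true g k
      · rw [g', k'] at h5; norm_num at h5
      · rw [g', k'] at h5; norm_num at h5
      · exact iff_of_false g k
    · have := Finset.ext_iff.1 h3 p
      rw [Finset.mem_erase, Finset.mem_erase] at this
      tauto
  have key : AS D = FF '' (((Ram S).powerset.filter fun T => ∀ q ∈ Ram S,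
      ∑ p ∈ T, mM S p q = 0 : Finset (Finset ℕ)) : Set (Finset ℕ)) := by
    rw [hRam]
    ext d
    rw [Set.mem_image]
    constructor
    · intro hd
      obtain ⟨T, hT, rfl⟩ := surj d hd
      refine ⟨T, ?_, rfl⟩
      rw [Finset.mem_coe, Finset.mem_filter, Finset.mem_powerset]
      exact ⟨hT, (mem T hT).1 hd⟩
    · rintro ⟨T, hT, rfl⟩
      rw [Finset.mem_coe, Finset.mem_filter, Finset.mem_powerset] at hT
      exact (mem T hT.1).2 hT.2
  rw [key]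
  refine ⟨(Finset.finite_toSet _).image _, ?_⟩
  rw [Set.ncard_image_of_injOn, Set.ncard_coe_finset]
  · rfl
  · intro T hT T' hT' h
    rw [Finset.mem_coe, Finset.mem_filter, Finset.mem_powerset, hRam] at hT hT'
    exact inj T hT.1 T' hT'.1 h

end Pool.Agent.NH57.SQ.XL
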