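import Pool.Agent.NH57.SQ.XL.Stm

/-!
# AS(2): the number of the classes `d₁` for even `D`
-/

set_option autoImplicit false
set_option linter.unusedVariables false

open scoped Classical

namespace Pool.Agent.NH57.SQ.XL

open Finset
open Pool.Agent.Y703.CQ (nr)
open Pool.Agent.NH4.XG (Ram)

namespace ASP

/-- the additive quadratic symbol -/
noncomputable def nu (q : ℕ) (a : ℤ) : ZMod 2 := if jacobiSym a q = 1 then 0 else 1

theorem nu_eq_zero {q : ℕ} {a : ℤ} : nu q a = 0 ↔ jacobiSym a q = 1 := by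
  unfold nu
  by_cases h : jacobiSym a q = 1
  · rw [if_pos h]; exact ⟨fun _ => h, fun _ => rfl⟩
  · rw [if_neg h]; exact ⟨fun h' => absurd h' one_ne_zero, fun h' => absurd h' h⟩

theorem jac_or {q : ℕ} (hq : q.Prime) {a : ℤ} (ha : ¬ (q : ℤ) ∣ a) :
    jacobiSym a q = 1 ∨ jacobiSym a q = -1 := by
  have := Fact.mk hq
  rw [← jacobiSym.legendreSym.to_jacobiSym]
  exact legendreSym.eq_one_or_neg_one q (by rwa [Ne, ZMod.intCast_zmod_eq_zero_iff_dvd])

theorem nu_mul {q : ℕ} (hq : q.Prime) {a b : ℤ} (ha : ¬ (q : ℤ) ∣ a) (hb : ¬ (q : ℤ) ∣ b) :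
    nu q (a * b) = nu q a + nu q b := by
  unfold nu
  rw [jacobiSym.mul_left]
  rcases jac_or hq ha with h1 | h1 <;> rcases jac_or hq hb with h2 | h2 <;>
    (rw [h1, h2]; norm_num; try rfl)

theorem nu_one (q : ℕ) : nu q 1 = 0 := nu_eq_zero.2 (jacobiSym.one_left q)

theorem nu_prod {q : ℕ} (hq : q.Prime) (T : Finset ℕ) (g : ℕ → ℤ)
    (h : ∀ p ∈ T, ¬ (q : ℤ) ∣ g p) : nu q (∏ p ∈ T, g p) = ∑ p ∈ T, nu q (g p) := by
  induction T using Finset.induction_on with
  | empty => rw [Finset.prod_empty, Finset.sum_empty, nu_one]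
  | insert a T ha ih =>
    rw [Finset.prod_insert ha, Finset.sum_insert ha, nu_mul hq (h a (Finset.mem_insert_self _ _)),
      ih fun p hp => h p (Finset.mem_insert_of_mem hp)]
    rw [Prime.dvd_finsetProd_iff (Nat.prime_iff_prime_int.1 hq)]
    rintro ⟨p, hp, hpd⟩
    exact h p (Finset.mem_insert_of_mem hp) hpd

theorem nu_nat {q : ℕ} (hq : q.Prime) {n : ℕ} (hn : ¬ (q : ℤ) ∣ (n : ℤ)) :
    nu q n = nr q n := by
  have := Fact.mk hq
  have h0 : ((n : ℤ) : ZMod q) ≠ 0 := by rwa [Ne, ZMod.intCast_zmod_eq_zero_iff_dvd]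
  have h1 := legendreSym.eq_one_iff q h0
  unfold nu nr
  rw [← jacobiSym.legendreSym.to_jacobiSym]
  by_cases h : legendreSym q n = 1
  · rw [if_pos h, if_pos]
    have := h1.1 h
    rwa [Int.cast_natCast] at this
  · rw [if_neg h, if_neg]
    intro h'
    apply h
    apply h1.2
    rwa [Int.cast_natCast]

theorem odd_of {p : ℕ} (hp : p.Prime) (h2 : p ≠ 2) : Odd p := hp.odd_of_ne_two h2

theorem ps_mod4 {p : ℕ} (h : Odd p) : ps p % 4 = 1 := by
  unfold ps
  obtain ⟨k, hk⟩ := h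
  split_ifs with h1 <;> omega

theorem ps_natAbs (p : ℕ) : (ps p).natAbs = p := by
  unfold ps
  split_ifs with h1
  · exact Int.natAbs_natCast p
  · rw [Int.natAbs_neg, Int.natAbs_natCast]

theorem ps_dvd {q p : ℕ} (hq : q.Prime) (hp : p.Prime) (h : (q : ℤ) ∣ ps p) : q = p := by
  have h1 := Int.natAbs_dvd_natAbs.2 h
  rw [ps_natAbs, Int.natAbs_natCast] at h1
  exact (Nat.prime_dvd_prime_iff_eq hq hp).1 h1

theorem nu_ps {q p : ℕ} (hq : q.Prime) (hp : p.Prime) (hq2 : q ≠ 2) (hp2 : p ≠ 2) (hne : q ≠ p) :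
    nu q (ps p) = nr p q := by
  have hqo := odd_of hq hq2
  have hpo := odd_of hp hp2
  have hnd : ¬ (p : ℤ) ∣ (q : ℤ) := by
    rw [Int.natCast_dvd_natCast, Nat.prime_dvd_prime_iff_eq hp hq]
    exact hne.symm
  rw [← nu_nat hp hnd]
  unfold nu ps
  have key : jacobiSym (if p % 4 = 1 then (p : ℤ) else -(p : ℤ)) q = jacobiSym (q : ℤ) p := by
    split_ifs with h1
    · exact jacobiSym.quadratic_reciprocity_one_mod_four h1 hqo
    · have h3 : p % 4 = 3 := by
        obtain ⟨k, hk⟩ := hpo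
        omega
      rw [jacobiSym.neg _ hqo]
      by_cases h4 : q % 4 = 1
      · rw [ZMod.χ₄_nat_one_mod_four h4, one_mul]
        exact (jacobiSym.quadratic_reciprocity_one_mod_four h4 hpo).symm
      · have h5 : q % 4 = 3 := by
          obtain ⟨k, hk⟩ := hqo
          omega
        rw [ZMod.χ₄_nat_three_mod_four h5,
          jacobiSym.quadratic_reciprocity_three_mod_four h3 h5]
        ring
  rw [key]

/-- the odd part of the class -/
noncomputable def f0 (T : Finset ℕ) : ℤ := ∏ p ∈ T, ps p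

/-- the argument of the symbol in the condition `H1` -/
noncomputable def cnd (q : ℕ) (D d : ℤ) : ℤ := if (q : ℤ) ∣ d then (D / q) * (d / q) else d

theorem f0_natAbs (T : Finset ℕ) : (f0 T).natAbs = ∏ p ∈ T, p := by
  unfold f0
  induction T using Finset.induction_on with
  | empty => rfl
  | insert a T ha ih =>
    rw [Finset.prod_insert ha, Finset.prod_insert ha, Int.natAbs_mul, ps_natAbs, ih]

theorem f0_mod4 {T : Finset ℕ} (hT : ∀ p ∈ T, Odd p) : f0 T % 4 = 1 := by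
  unfold f0
  induction T using Finset.induction_on with
  | empty => rfl
  | insert a T ha ih =>
    rw [Finset.prod_insert ha, Int.mul_emod, ps_mod4 (hT a (Finset.mem_insert_self _ _)),
      ih fun p hp => hT p (Finset.mem_insert_of_mem hp)]
    rfl

theorem dvd_f0 {q : ℕ} (hq : q.Prime) {T : Finset ℕ} (hT : ∀ p ∈ T, p.Prime) :
    (q : ℤ) ∣ f0 T ↔ q ∈ T := by
  constructor
  · intro h
    unfold f0 at h
    obtain ⟨p, hp, hd⟩ := (Prime.dvd_finsetProd_iff (Nat.prime_iff_prime_int.1 hq) _).1 h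
    rw [ps_dvd hq (hT p hp) hd]
    exact hp
  · intro h
    rw [← Int.natAbs_dvd_natAbs, f0_natAbs, Int.natAbs_natCast]
    exact Finset.dvd_prod_of_mem _ h

theorem not_dvd_div {q : ℕ} (hq : q.Prime) {D : ℤ} (hD : Squarefree D) (hqD : (q : ℤ) ∣ D) :
    ¬ (q : ℤ) ∣ D / q := by
  intro h
  obtain ⟨c, hc⟩ := h
  have hq0 : (q : ℤ) ≠ 0 := by exact_mod_cast hq.ne_zero
  have h1 : D = q * (q * c) := by
    rw [← hc, Int.mul_ediv_cancel' hqD]
  have h2 := hD (q : ℤ) ⟨c, by rw [h1]; ring⟩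
  exact (Nat.prime_iff_prime_int.1 hq).not_isUnit h2

theorem not_dvd_cnd {q : ℕ} (hq : q.Prime) {D d : ℤ} (hD : Squarefree D) (hqD : (q : ℤ) ∣ D)
    (hd : Squarefree d) : ¬ (q : ℤ) ∣ cnd q D d := by
  unfold cnd
  split_ifs with h
  · intro h'
    rcases (Nat.prime_iff_prime_int.1 hq).dvd_or_dvd h' with h1 | h1
    · exact not_dvd_div hq hD hqD h1
    · exact not_dvd_div hq hd h h1
  · exact h

theorem H1_iff (hSQ : S_SQ) {q : ℕ} [Fact q.Prime] (h2 : q ≠ 2) {D d : ℤ} (hD : Squarefree D)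
    (hd : Squarefree d) (hqD : (q : ℤ) ∣ D) : H1 q D d ↔ nu q (cnd q D d) = 0 := by
  rw [(hSQ q D d h2 hD hd hqD).1, nu_eq_zero]
  unfold cnd
  split_ifs with h
  · exact Iff.rfl
  · exact Iff.rfl

theorem cnd_mul {q : ℕ} (hq : q.Prime) (D : ℤ) {u : ℤ} (hu : ¬ (q : ℤ) ∣ u) (x : ℤ) :
    cnd q D (u * x) = u * cnd q D x := by
  unfold cnd
  by_cases h : (q : ℤ) ∣ x
  · rw [if_pos h, if_pos (Dvd.dvd.mul_left h u), Int.mul_ediv_assoc u h]
    ring
  · rw [if_neg h, if_neg]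
    intro h'
    rcases (Nat.prime_iff_prime_int.1 hq).dvd_or_dvd h' with h1 | h1
    · exact hu h1
    · exact h h1

theorem sqf_f0 {T : Finset ℕ} (hT : ∀ p ∈ T, p.Prime) : Squarefree (f0 T) := by
  rw [← Int.squarefree_natAbs, f0_natAbs]
  exact Finset.squarefree_prod_of_pairwise_isCoprime
    (fun a ha b hb hab => Nat.coprime_iff_isRelPrime.1 ((Nat.coprime_primes (hT a ha) (hT b hb)).2 hab))
    (fun p hp => (Nat.prime_iff.1 (hT p hp)).squarefree)

/-- the sum of the rows of odd primes -/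
theorem me_sum {S : Finset ℕ} (hS : ∀ p ∈ S, p.Prime) {D : ℤ} (hD : D = -∏ p ∈ S, (p : ℤ))
    {T : Finset ℕ} (hTS : T ⊆ S.erase 2) {q : ℕ} (hq : q ∈ S.erase 2) :
    ∑ p ∈ T, me S p q = nu q (cnd q D (f0 T)) := by
  obtain ⟨hq2, hqS⟩ := Finset.mem_erase.1 hq
  have hqp := hS q hqS
  have hTp : ∀ p ∈ T, p.Prime := fun p hp => hS p (Finset.mem_of_mem_erase (hTS hp))
  have hT2 : ∀ p ∈ T, p ≠ 2 := fun p hp => (Finset.mem_erase.1 (hTS hp)).1
  have hsum : ∀ T' : Finset ℕ, T' ⊆ T → q ∉ T' → ∑ p ∈ T', me S p q = nu q (f0 T') := by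
    intro T' hT' hqT'
    unfold f0
    rw [nu_prod hqp]
    · refine Finset.sum_congr rfl fun p hp => ?_
      have hne : q ≠ p := by
        rintro rfl
        exact hqT' hp
      unfold me
      rw [if_neg hne, nu_ps hqp (hTp p (hT' hp)) hq2 (hT2 p (hT' hp)) hne]
    · intro p hp h
      exact hqT' (ps_dvd hqp (hTp p (hT' hp)) h ▸ hp)
  by_cases hqT : q ∈ T
  · have hdv : (q : ℤ) ∣ f0 T := (dvd_f0 hqp hTp).2 hqT
    have hq0 : (q : ℤ) ≠ 0 := by exact_mod_cast hqp.ne_zero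
    obtain ⟨s, hs, hsn⟩ : ∃ s : ℤ, ps q = q * s ∧ (nu q (-s) = 0 ∧ ¬ (q : ℤ) ∣ -s) := by
      unfold ps
      by_cases h4 : q % 4 = 1
      · refine ⟨1, by rw [if_pos h4, mul_one], ?_, ?_⟩
        · rw [nu_eq_zero, jacobiSym.at_neg_one (odd_of hqp hq2), ZMod.χ₄_nat_one_mod_four h4]
        · rw [Int.dvd_neg]
          intro h
          exact (Nat.prime_iff_prime_int.1 hqp).not_isUnit (isUnit_of_dvd_one h)
      · refine ⟨-1, by rw [if_neg h4]; ring, ?_, ?_⟩
        · rw [neg_neg, nu_one]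
        · rw [neg_neg]
          intro h
          exact (Nat.prime_iff_prime_int.1 hqp).not_isUnit (isUnit_of_dvd_one h)
    have e1 : f0 T / q = s * f0 (T.erase q) := by
      have : f0 T = q * (s * f0 (T.erase q)) := by
        unfold f0
        rw [← Finset.mul_prod_erase T ps hqT, hs]
        ring
      rw [this, Int.mul_ediv_cancel_left _ hq0]
    have e2 : D / q = -∏ p ∈ S.erase q, (p : ℤ) := by
      have : D = q * (-∏ p ∈ S.erase q, (p : ℤ)) := by
        rw [hD, ← Finset.mul_prod_erase S (fun p => (p : ℤ)) hqS]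
        ring
      rw [this, Int.mul_ediv_cancel_left _ hq0]
    have e3 : cnd q D (f0 T) = (-s) * ((∏ p ∈ S.erase q, (p : ℤ)) * f0 (T.erase q)) := by
      unfold cnd
      rw [if_pos hdv, e1, e2]
      ring
    have n1 : ∀ p ∈ S.erase q, ¬ (q : ℤ) ∣ (p : ℤ) := by
      intro p hp h
      rw [Int.natCast_dvd_natCast, Nat.prime_dvd_prime_iff_eq hqp
        (hS p (Finset.mem_of_mem_erase hp))] at h
      exact (Finset.mem_erase.1 hp).1 h.symm
    have n2 : ¬ (q : ℤ) ∣ ∏ p ∈ S.erase q, (p : ℤ) := by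
      intro h
      obtain ⟨p, hp, hd⟩ := (Prime.dvd_finsetProd_iff (Nat.prime_iff_prime_int.1 hqp) _).1 h
      exact n1 p hp hd
    have n3 : ¬ (q : ℤ) ∣ f0 (T.erase q) := by
      rw [dvd_f0 hqp fun p hp => hTp p (Finset.mem_of_mem_erase hp)]
      exact Finset.notMem_erase q T
    have n4 : ¬ (q : ℤ) ∣ (∏ p ∈ S.erase q, (p : ℤ)) * f0 (T.erase q) := by
      intro h
      rcases (Nat.prime_iff_prime_int.1 hqp).dvd_or_dvd h with h | h
      · exact n2 h
      · exact n3 h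
    rw [e3, nu_mul hqp hsn.2 n4, hsn.1, zero_add, nu_mul hqp n2 n3, nu_prod hqp _ _ n1,
      ← Finset.add_sum_erase T _ hqT, hsum _ (Finset.erase_subset _ _) (Finset.notMem_erase q T)]
    congr 1
    unfold me
    rw [if_pos rfl]
    exact Finset.sum_congr rfl fun p hp => (nu_nat hqp (n1 p hp)).symm
  · have hdv : ¬ (q : ℤ) ∣ f0 T := fun h => hqT ((dvd_f0 hqp hTp).1 h)
    unfold cnd
    rw [if_neg hdv]
    exact hsum T (Finset.Subset.refl _) hqT

/-- the sum of the rows of a set of primes -/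
theorem mM_sum {S : Finset ℕ} (hS : ∀ p ∈ S, p.Prime) {D u : ℤ} (hD : D = -∏ p ∈ S, (p : ℤ))
    (hu : D = u * f0 (S.erase 2)) (hu2 : ∀ q ∈ S.erase 2, ¬ (q : ℤ) ∣ u) (hDs : Squarefree D)
    {T : Finset ℕ} (hTS : T ⊆ insert 2 S) {q : ℕ} (hq : q ∈ S.erase 2) :
    ∑ p ∈ T, mM S p q = nu q (cnd q D ((if 2 ∈ T then u else 1) * f0 (T.erase 2))) := by
  obtain ⟨hq2, hqS⟩ := Finset.mem_erase.1 hq
  have hqp := hS q hqS
  have hqD : (q : ℤ) ∣ D := by
    rw [hD]
    exact (Finset.dvd_prod_of_mem (fun p : ℕ => (p : ℤ)) hqS).neg_right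
  have hsub : T.erase 2 ⊆ S.erase 2 := by
    intro p hp
    obtain ⟨h1, h2⟩ := Finset.mem_erase.1 hp
    rcases Finset.mem_insert.1 (hTS h2) with h3 | h3
    · exact absurd h3 h1
    · exact Finset.mem_erase.2 ⟨h1, h3⟩
  have hm : ∀ p ∈ T.erase 2, mM S p q = me S p q := by
    intro p hp
    unfold mM
    rw [if_neg (Finset.mem_erase.1 hp).1]
  have hrest : ∑ p ∈ T.erase 2, mM S p q = nu q (cnd q D (f0 (T.erase 2))) := by
    rw [Finset.sum_congr rfl hm, me_sum hS hD hsub hq]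
  have hprS : ∀ p ∈ S.erase 2, p.Prime := fun p hp => hS p (Finset.mem_of_mem_erase hp)
  by_cases h2 : 2 ∈ T
  · rw [if_pos h2, cnd_mul hqp D (hu2 q hq), nu_mul hqp (hu2 q hq)
      (not_dvd_cnd hqp hDs hqD (sqf_f0 fun p hp => hprS p (hsub hp))),
      ← Finset.add_sum_erase T _ h2, hrest]
    congr 1
    unfold mM
    rw [if_pos rfl, me_sum hS hD (Finset.Subset.refl _) hq]
    have hdv : (q : ℤ) ∣ f0 (S.erase 2) := (dvd_f0 hqp hprS).2 hq
    have hY := not_dvd_div hqp (sqf_f0 hprS) hdv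
    unfold cnd
    rw [if_pos hdv]
    have e1 : D / q = u * (f0 (S.erase 2) / q) := by
      rw [hu, Int.mul_ediv_assoc u hdv]
    have hY2 : ¬ (q : ℤ) ∣ (f0 (S.erase 2) / q) * (f0 (S.erase 2) / q) := by
      intro h
      rcases (Nat.prime_iff_prime_int.1 hqp).dvd_or_dvd h with h | h
      · exact hY h
      · exact hY h
    rw [e1, mul_assoc, nu_mul hqp (hu2 q hq) hY2, nu_mul hqp hY hY, CharTwo.add_self_eq_zero,
      add_zero]
  · rw [if_neg h2, one_mul]
    rw [Finset.erase_eq_of_notMem h2] at hrest ⊢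
    exact hrest

/-- the symbols at `2` -/
theorem nr_two {p : ℕ} (hp : p.Prime) (h2 : p ≠ 2) :
    nr p 2 = if ps p % 8 = 1 then 0 else 1 := by
  have := Fact.mk hp
  have h := ZMod.exists_sq_eq_two_iff (p := p) h2
  have hcast : ((2 : ℕ) : ZMod p) = 2 := by norm_cast
  unfold nr
  rw [hcast]
  obtain ⟨k, hk⟩ := odd_of hp h2
  by_cases hs : IsSquare (2 : ZMod p)
  · rw [if_pos hs, if_pos]
    rcases h.1 hs with h1 | h1
    · unfold ps; rw [if_pos (by omega)]; omega
    · unfold ps; rw [if_neg (by omega)]; omega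
  · rw [if_neg hs, if_neg]
    intro h1
    apply hs
    apply h.2
    unfold ps at h1
    split_ifs at h1 with h4 <;> omega

theorem two_sum {T : Finset ℕ} (hT : ∀ p ∈ T, p.Prime ∧ p ≠ 2) :
    (f0 T % 8 = 1 ∨ f0 T % 8 = 5) ∧ ∑ p ∈ T, nr p 2 = if f0 T % 8 = 1 then 0 else 1 := by
  unfold f0
  induction T using Finset.induction_on with
  | empty => exact ⟨Or.inl rfl, rfl⟩
  | insert a T ha ih =>
    obtain ⟨i1, i2⟩ := ih fun p hp => hT p (Finset.mem_insert_of_mem hp)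
    obtain ⟨a1, a2⟩ := hT a (Finset.mem_insert_self _ _)
    rw [Finset.prod_insert ha, Finset.sum_insert ha, i2, nr_two a1 a2]
    have h4 := ps_mod4 (odd_of a1 a2)
    have h8 : ps a % 8 = 1 ∨ ps a % 8 = 5 := by omega
    rcases h8 with h8 | h8 <;> rcases i1 with i1 | i1 <;>
      (rw [Int.mul_emod, h8, i1]; norm_num; try rfl)

theorem mM_two {S : Finset ℕ} {T : Finset ℕ} :
    ∑ p ∈ T, mM S p 2 = ∑ p ∈ T.erase 2, nr p 2 + if 2 ∈ T then ∑ p ∈ S.erase 2, nr p 2 else 0 := by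
  have hme : ∀ p, p ≠ 2 → me S p 2 = nr p 2 := by
    intro p hp
    unfold me
    rw [if_neg hp.symm]
  have hm : ∀ p ∈ T.erase 2, mM S p 2 = nr p 2 := by
    intro p hp
    have h2 := (Finset.mem_erase.1 hp).1
    unfold mM
    rw [if_neg h2, hme p h2]
  by_cases h2 : 2 ∈ T
  · rw [if_pos h2, ← Finset.add_sum_erase T _ h2, Finset.sum_congr rfl hm, add_comm]
    congr 1
    unfold mM
    rw [if_pos rfl]
    exact Finset.sum_congr rfl fun p hp => hme p (Finset.mem_erase.1 hp).1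
  · rw [if_neg h2, add_zero]
    rw [Finset.erase_eq_of_notMem h2] at hm ⊢
    exact Finset.sum_congr rfl hm

end ASP

open ASP in
theorem t_ASc : S_AS 2 := by
  intro hSQ D hD0 hDs hD4
  set S := D.natAbs.primeFactors with hSdef
  have hS : ∀ p ∈ S, p.Prime := fun p hp => Nat.prime_of_mem_primeFactors hp
  have hDn : D.natAbs ≠ 0 := by omega
  have hprod : ∏ p ∈ S, p = D.natAbs :=
    Nat.prod_primeFactors_of_squarefree (Int.squarefree_natAbs.2 hDs)
  have hD : D = -∏ p ∈ S, (p : ℤ) := by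
    rw [← Nat.cast_prod, hprod]
    omega
  have h2S : 2 ∈ S := by
    rw [hSdef, Nat.mem_primeFactors]
    exact ⟨Nat.prime_two, by omega, hDn⟩
  have hRam : Ram S = S := by
    unfold Ram
    rw [hprod, if_neg (by omega)]
    exact Finset.insert_eq_of_mem h2S
  have hoddS : ∀ p ∈ S.erase 2, Odd p := fun p hp =>
    odd_of (hS p (Finset.mem_of_mem_erase hp)) (Finset.mem_erase.1 hp).1
  have hF4 := f0_mod4 hoddS
  have hFn := f0_natAbs (S.erase 2)
  have hDF : D.natAbs = 2 * (f0 (S.erase 2)).natAbs := by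
    rw [hFn, ← hprod, ← Finset.mul_prod_erase S (fun p => p) h2S]
  obtain ⟨u, hu, hu2⟩ : ∃ u : ℤ, D = u * f0 (S.erase 2) ∧ (u = 2 ∨ u = -2) := by
    rcases Int.natAbs_eq_natAbs_iff.1 (show D.natAbs = (2 * f0 (S.erase 2)).natAbs by
      rw [Int.natAbs_mul, hDF]; rfl) with h | h
    · exact ⟨2, h, Or.inl rfl⟩
    · exact ⟨-2, by rw [h]; ring, Or.inr rfl⟩
  have hun : u.natAbs = 2 := by rcases hu2 with rfl | rfl <;> rfl
  have hu3 : ∀ q ∈ S.erase 2, ¬ (q : ℤ) ∣ u := by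
    intro q hq h
    have h1 := Int.natAbs_dvd_natAbs.2 h
    rw [Int.natAbs_natCast, hun] at h1
    have := (Nat.prime_dvd_prime_iff_eq (hS q (Finset.mem_of_mem_erase hq)) Nat.prime_two).1 h1
    exact (Finset.mem_erase.1 hq).1 this
  -- the bijection
  set f : Finset ℕ → ℤ := fun T => (if 2 ∈ T then u else 1) * f0 (T.erase 2) with hf
  have hfn : ∀ T, (f T).natAbs = ∏ p ∈ T, p := by
    intro T
    rw [hf]
    simp only
    rw [Int.natAbs_mul, f0_natAbs]
    by_cases h2 : 2 ∈ T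
    · rw [if_pos h2, hun, ← Finset.mul_prod_erase T (fun p => p) h2]
    · rw [if_neg h2, Finset.erase_eq_of_notMem h2]
      simp
  have hfp : ∀ T, T ⊆ S → (f T).natAbs.primeFactors = T := by
    intro T hT
    rw [hfn]
    exact Nat.primeFactors_prod fun p hp => hS p (hT hp)
  have hfD : ∀ T, T ⊆ S → f T ∣ D := by
    intro T hT
    rw [← Int.natAbs_dvd_natAbs, hfn, ← hprod]
    exact Finset.prod_dvd_prod_of_subset _ _ _ hT
  have hfs : ∀ T, T ⊆ S → Squarefree (f T) := fun T hT => hDs.squarefree_of_dvd (hfD T hT)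
  have hA2 : ∀ T, T ⊆ S → (A2 D (f T) ↔ ∑ p ∈ T, mM S p 2 = 0) := by
    intro T hT
    have hT2 : ∀ p ∈ T.erase 2, p.Prime ∧ p ≠ 2 := fun p hp =>
      ⟨hS p (hT (Finset.mem_of_mem_erase hp)), (Finset.mem_erase.1 hp).1⟩
    have hS2 : ∀ p ∈ S.erase 2, p.Prime ∧ p ≠ 2 := fun p hp =>
      ⟨hS p (Finset.mem_of_mem_erase hp), (Finset.mem_erase.1 hp).1⟩
    obtain ⟨t1, t2⟩ := two_sum hT2
    obtain ⟨s1, s2⟩ := two_sum hS2
    rw [mM_two, t2]
    unfold A2
    rw [hf]
    simp only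
    by_cases h2 : 2 ∈ T
    · rw [if_pos h2, if_pos h2, s2]
      have hk : (u * f0 (T.erase 2)) % 16 = D % 16 ↔ f0 (T.erase 2) % 8 = f0 (S.erase 2) % 8 := by
        rw [hu]
        rcases hu2 with rfl | rfl <;> omega
      have hnot : ¬ (u * f0 (T.erase 2)) % 8 = 1 := by
        rcases hu2 with rfl | rfl <;> omega
      have hL : (D % 4 = 1 ∧ (u * f0 (T.erase 2)) % 4 = 1 ∨ D % 4 ≠ 1 ∧
          ((u * f0 (T.erase 2)) % 8 = 1 ∨ D % 2 = 1 ∧ (u * f0 (T.erase 2)) % 8 = D % 8 ∨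
            D % 2 = 0 ∧ (u * f0 (T.erase 2)) % 16 = D % 16)) ↔
          f0 (T.erase 2) % 8 = f0 (S.erase 2) % 8 := by
        rw [← hk]
        omega
      rw [hL]
      rcases t1 with t1 | t1 <;> rcases s1 with s1 | s1 <;> (rw [t1, s1]; norm_num; try decide)
    · rw [if_neg h2, if_neg h2, one_mul, add_zero]
      have hL : (D % 4 = 1 ∧ (f0 (T.erase 2)) % 4 = 1 ∨ D % 4 ≠ 1 ∧
          ((f0 (T.erase 2)) % 8 = 1 ∨ D % 2 = 1 ∧ (f0 (T.erase 2)) % 8 = D % 8 ∨
            D % 2 = 0 ∧ (f0 (T.erase 2)) % 16 = D % 16)) ↔ f0 (T.erase 2) % 8 = 1 := by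
        omega
      rw [hL]
      rcases t1 with t1 | t1 <;> rw [t1] <;> norm_num
  have hmem : ∀ T, T ⊆ S → (f T ∈ AS D ↔ ∀ q ∈ S, ∑ p ∈ T, mM S p q = 0) := by
    intro T hT
    have hTi : T ⊆ insert 2 S := hT.trans (Finset.subset_insert _ _)
    constructor
    · rintro ⟨-, h1, h2⟩ q hq
      by_cases hq2 : q = 2
      · rw [hq2]
        exact (hA2 T hT).1 h1
      · have hqe : q ∈ S.erase 2 := Finset.mem_erase.2 ⟨hq2, hq⟩
        have := Fact.mk (hS q hq)
        have hqD : (q : ℤ) ∣ D := by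
          rw [hD]
          exact (Finset.dvd_prod_of_mem (fun p : ℕ => (p : ℤ)) hq).neg_right
        rw [mM_sum hS hD hu hu3 hDs hTi hqe]
        exact (H1_iff hSQ hq2 hDs (hfs T hT) hqD).1 ((h2 q hq2).1 hqD)
    · intro h
      refine ⟨hfs T hT, (hA2 T hT).2 (h 2 h2S), ?_⟩
      intro q _ hq2
      have hqp : q.Prime := Fact.out
      constructor
      · intro hqD
        have hq : q ∈ S := by
          rw [hSdef, Nat.mem_primeFactors]
          refine ⟨hqp, ?_, hDn⟩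
          have := Int.natAbs_dvd_natAbs.2 hqD
          rwa [Int.natAbs_natCast] at this
        have hqe : q ∈ S.erase 2 := Finset.mem_erase.2 ⟨hq2, hq⟩
        rw [H1_iff hSQ hq2 hDs (hfs T hT) hqD]
        have h1 := h q hq
        rw [mM_sum hS hD hu hu3 hDs hTi hqe] at h1
        exact h1
      · intro hqD hqf
        exact hqD (hqf.trans (hfD T hT))
  have hsurj : ∀ d ∈ AS D, ∃ T, T ⊆ S ∧ f T = d := by
    rintro d ⟨d1, d2, d3⟩
    have hdn : d.natAbs ≠ 0 := by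
      have := d1.ne_zero
      omega
    refine ⟨d.natAbs.primeFactors, ?_, ?_⟩
    · intro q hq
      obtain ⟨hqp, hqd, -⟩ := Nat.mem_primeFactors.1 hq
      by_cases hq2 : q = 2
      · rw [hq2]; exact h2S
      · have := Fact.mk hqp
        rw [hSdef, Nat.mem_primeFactors]
        refine ⟨hqp, ?_, hDn⟩
        by_contra hcon
        apply (d3 q hq2).2
        · intro h
          apply hcon
          have := Int.natAbs_dvd_natAbs.2 h
          rwa [Int.natAbs_natCast] at this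
        · rw [← Int.natAbs_dvd_natAbs, Int.natAbs_natCast]
          exact hqd
    · have hn : (f d.natAbs.primeFactors).natAbs = d.natAbs := by
        rw [hfn]
        exact Nat.prod_primeFactors_of_squarefree (Int.squarefree_natAbs.2 d1)
      have hodd : ∀ p ∈ d.natAbs.primeFactors.erase 2, Odd p := fun p hp =>
        odd_of (Nat.prime_of_mem_primeFactors (Finset.mem_of_mem_erase hp)) (Finset.mem_erase.1 hp).1
      have h4 := f0_mod4 hodd
      rcases Int.natAbs_eq_natAbs_iff.1 hn with h | h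
      · exact h
      · exfalso
        unfold A2 at d2
        rw [hf] at h
        simp only at h
        by_cases h2 : 2 ∈ d.natAbs.primeFactors
        · rw [if_pos h2] at h
          rcases hu2 with rfl | rfl <;> omega
        · rw [if_neg h2, one_mul] at h
          omega
  have heq : AS D = ↑((S.powerset.filter fun T => ∀ q ∈ S, ∑ p ∈ T, mM S p q = 0).image f) := by
    ext d
    rw [Finset.mem_coe, Finset.mem_image]
    constructor
    · intro hd
      obtain ⟨T, hT, rfl⟩ := hsurj d hd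
      exact ⟨T, Finset.mem_filter.2 ⟨Finset.mem_powerset.2 hT, (hmem T hT).1 hd⟩, rfl⟩
    · rintro ⟨T, hT, rfl⟩
      obtain ⟨h1, h2⟩ := Finset.mem_filter.1 hT
      exact (hmem T (Finset.mem_powerset.1 h1)).2 h2
  rw [heq]
  refine ⟨Finset.finite_toSet _, ?_⟩
  rw [Set.ncard_coe_finset, Finset.card_image_of_injOn]
  · unfold nxT
    rw [hRam]
  · intro T hT T' hT' h
    have h1 := Finset.mem_powerset.1 (Finset.mem_filter.1 (Finset.mem_coe.1 hT)).1
    have h2 := Finset.mem_powerset.1 (Finset.mem_filter.1 (Finset.mem_coe.1 hT')).1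
    rw [← hfp T h1, ← hfp T' h2]
    rw [h]

end Pool.Agent.NH57.SQ.XL
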