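import Pool.Agent.NH57.SQ.XL.Stm

set_option autoImplicit false

/-!
# Project XS (helper3), the statement S_CS 1. Written by helper71.
-/

open scoped Classical

namespace Pool.Agent.NH57.SQ.XL.CSp

open Finset
open Pool.Agent.Y703.CQ (nr)
open Pool.Agent.NH4.XG (nx Ram SolG)

/-- the sign -/
def sgn (a : ZMod 2) : ℤ := if a = 0 then 1 else -1

theorem sgn_zero : sgn 0 = 1 := by decide

theorem sgn_add (a b : ZMod 2) : sgn (a + b) = sgn a * sgn b := by
  revert a b
  decide

theorem sgn_eq_one (a : ZMod 2) : sgn a = 1 ↔ a = 0 := by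
  revert a
  decide

theorem jac_nr (p : ℕ) [Fact p.Prime] (a : ℕ) (h : ¬ p ∣ a) :
    jacobiSym (a : ℤ) p = sgn (nr p a) := by
  have h0 : (((a : ℕ) : ℤ) : ZMod p) ≠ 0 := by
    rw [Int.cast_natCast]
    intro h1
    exact h ((ZMod.natCast_eq_zero_iff a p).1 h1)
  rw [← jacobiSym.legendreSym.to_jacobiSym]
  by_cases hs : IsSquare ((a : ℕ) : ZMod p)
  · have h1 : nr p a = 0 := by
      unfold nr
      rw [if_pos hs]
    rw [h1, sgn_zero]
    rw [legendreSym.eq_one_iff p h0, Int.cast_natCast]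
    exact hs
  · have h1 : nr p a = 1 := by
      unfold nr
      rw [if_neg hs]
    rw [h1]
    have : sgn 1 = -1 := by decide
    rw [this, legendreSym.eq_neg_one_iff p, Int.cast_natCast]
    exact hs

theorem jac_prod (p : ℕ) [Fact p.Prime] (T : Finset ℕ) (h : ∀ q ∈ T, ¬ p ∣ q) :
    jacobiSym ((∏ q ∈ T, q : ℕ) : ℤ) p = sgn (∑ q ∈ T, nr p q) := by
  induction T using Finset.induction_on with
  | empty => simp [sgn_zero]
  | insert a s ha ih =>
    rw [prod_insert ha, sum_insert ha, Nat.cast_mul, jacobiSym.mul_left, sgn_add,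
      ih fun q hq => h q (mem_insert_of_mem hq), jac_nr p a (h a (mem_insert_self _ _))]

theorem nr_self (p : ℕ) : nr p p = 0 := by
  unfold nr
  rw [if_pos]
  rw [ZMod.natCast_self]
  exact ⟨0, by simp⟩

theorem prime_ndvd {p : ℕ} (hp : p.Prime) {T : Finset ℕ} (hT : ∀ q ∈ T, q.Prime) (h : p ∉ T) :
    ∀ q ∈ T, ¬ p ∣ q := by
  intro q hq hd
  have := (Nat.prime_dvd_prime_iff_eq hp (hT q hq)).1 hd
  exact h (this ▸ hq)

theorem dvd_prod_iff {p : ℕ} (hp : p.Prime) {T : Finset ℕ} (hT : ∀ q ∈ T, q.Prime) :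
    p ∣ ∏ q ∈ T, q ↔ p ∈ T := by
  constructor
  · intro h
    obtain ⟨q, hq, hd⟩ := (Prime.dvd_finsetProd_iff hp.prime _).1 h
    have := (Nat.prime_dvd_prime_iff_eq hp (hT q hq)).1 hd
    exact this ▸ hq
  · intro h
    exact dvd_prod_of_mem _ h

theorem sqf_prod {T : Finset ℕ} (hT : ∀ q ∈ T, q.Prime) : Squarefree (∏ q ∈ T, q) := by
  induction T using Finset.induction_on with
  | empty => simp
  | insert a s ha ih =>
    rw [prod_insert ha, Nat.squarefree_mul]
    · exact ⟨(hT a (mem_insert_self _ _)).prime.squarefree, ih fun q hq => hT q (mem_insert_of_mem hq)⟩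
    · refine Nat.Coprime.prod_right fun q hq => ?_
      rw [Nat.coprime_primes (hT a (mem_insert_self _ _)) (hT q (mem_insert_of_mem hq))]
      rintro rfl
      exact ha hq

/-- the sum over `T ⊆ insert 2 S` -/
theorem sum_ind (S T : Finset ℕ) (h2 : 2 ∉ S) (hT : T ⊆ insert 2 S) (f : ℕ → ZMod 2) :
    ∑ q ∈ S, f q * (if q ∈ T then 1 else 0) + f 2 * (if 2 ∈ T then 1 else 0) = ∑ q ∈ T, f q := by
  have h1 : ∑ q ∈ T, f q = ∑ q ∈ insert 2 S, f q * (if q ∈ T then 1 else 0) := by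
    rw [← sum_subset hT]
    · apply sum_congr rfl
      intro q hq
      rw [if_pos hq, mul_one]
    · intro q _ hq
      rw [if_neg hq, mul_zero]
  rw [h1, sum_insert h2, add_comm]

theorem sum_eq (S T : Finset ℕ) (h2 : 2 ∉ S) (hT : T ⊆ insert 2 S) (p : ℕ) (f : ℕ → ZMod 2) :
    ∑ q ∈ S, f q * ((if q ∈ T then 1 else 0) + (if p ∈ T then 1 else 0)) +
        f 2 * (if 2 ∈ T then 1 else 0) =
      ∑ q ∈ T, f q + (∑ q ∈ S, f q) * (if p ∈ T then 1 else 0) := by
  rw [← sum_ind S T h2 hT, sum_mul]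
  simp only [mul_add, sum_add_distrib]
  ring

theorem core (hSQ : S_SQ) (S T : Finset ℕ) (hS : ∀ q ∈ S, q.Prime) (h2 : 2 ∉ S)
    (hT : T ⊆ insert 2 S) (p : ℕ) [Fact p.Prime] (hp : p ∈ S) :
    H3 p (-((∏ q ∈ S, q : ℕ) : ℤ)) ((∏ q ∈ T, q : ℕ) : ℤ) ↔
      ∑ q ∈ S, nr p q * ((if q ∈ T then 1 else 0) + (if p ∈ T then 1 else 0)) +
        nr p 2 * (if 2 ∈ T then 1 else 0) = 0 := by
  have hpp : p.Prime := Fact.out
  have hp2 : p ≠ 2 := fun h => h2 (h ▸ hp)
  have hTp : ∀ q ∈ T, q.Prime := by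
    intro q hq
    rcases mem_insert.1 (hT hq) with h | h
    · rw [h]
      exact Nat.prime_two
    · exact hS q h
  have hD : Squarefree (-((∏ q ∈ S, q : ℕ) : ℤ)) := by
    rw [← Int.squarefree_natAbs, Int.natAbs_neg, Int.natAbs_natCast]
    exact sqf_prod hS
  have hd : Squarefree ((∏ q ∈ T, q : ℕ) : ℤ) := by
    rw [← Int.squarefree_natAbs, Int.natAbs_natCast]
    exact sqf_prod hTp
  have hpD : (p : ℤ) ∣ -((∏ q ∈ S, q : ℕ) : ℤ) := by
    rw [dvd_neg]
    exact_mod_cast dvd_prod_of_mem (fun q => q) hp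
  rw [(hSQ p _ _ hp2 hD hd hpD).2]
  rw [sum_eq S T h2 hT p (nr p)]
  by_cases hpT : p ∈ T
  · have hdv : (p : ℤ) ∣ ((∏ q ∈ T, q : ℕ) : ℤ) := by
      exact_mod_cast dvd_prod_of_mem (fun q => q) hpT
    rw [if_pos hdv, if_pos hpT, mul_one]
    have hp0 : (p : ℤ) ≠ 0 := by exact_mod_cast hpp.ne_zero
    have e2 : -((∏ q ∈ S, q : ℕ) : ℤ) / p = -((∏ q ∈ S.erase p, q : ℕ) : ℤ) := by
      apply Int.ediv_eq_of_eq_mul_right hp0
      rw [← mul_prod_erase S (fun q => q) hp]
      push_cast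
      ring
    have e3 : ((∏ q ∈ T, q : ℕ) : ℤ) / p = ((∏ q ∈ T.erase p, q : ℕ) : ℤ) := by
      apply Int.ediv_eq_of_eq_mul_right hp0
      rw [← mul_prod_erase T (fun q => q) hpT]
      push_cast
      ring
    have e4 : -(-((∏ q ∈ S, q : ℕ) : ℤ) / p * (((∏ q ∈ T, q : ℕ) : ℤ) / p)) =
        ((∏ q ∈ S.erase p, q : ℕ) : ℤ) * ((∏ q ∈ T.erase p, q : ℕ) : ℤ) := by
      rw [e2, e3]
      ring
    rw [e4, jacobiSym.mul_left,
      jac_prod p _ (prime_ndvd hpp (fun q hq => hS q (mem_of_mem_erase hq)) (notMem_erase p S)),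
      jac_prod p _ (prime_ndvd hpp (fun q hq => hTp q (mem_of_mem_erase hq)) (notMem_erase p T)),
      ← sgn_add, sgn_eq_one]
    rw [← add_sum_erase S (fun q => nr p q) hp, ← add_sum_erase T (fun q => nr p q) hpT, nr_self,
      zero_add, zero_add, add_comm]
  · have hdv : ¬ (p : ℤ) ∣ ((∏ q ∈ T, q : ℕ) : ℤ) := by
      intro h
      have h1 : p ∣ ∏ q ∈ T, q := by exact_mod_cast h
      exact hpT ((dvd_prod_iff hpp hTp).1 h1)
    rw [if_neg hdv, if_neg hpT, mul_zero, add_zero, jac_prod p _ (prime_ndvd hpp hTp hpT),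
      sgn_eq_one]

/-- the assembly -/
theorem asm (hSQ : S_SQ) (D : ℤ) (hD : D < 0) (hsq : Squarefree D) (hodd : D % 2 = 1)
    (R : Finset ℕ) (hR : R ⊆ insert 2 D.natAbs.primeFactors) (hR' : D.natAbs.primeFactors ⊆ R)
    (h1 : ∀ d, C2 D d → 2 ∉ R → ¬ (2 : ℤ) ∣ d)
    (h2 : ∀ T ⊆ R, SolG D.natAbs.primeFactors (fun p => if p ∈ T then 1 else 0) →
      C2 D ((∏ q ∈ T, q : ℕ) : ℤ)) :
    (CS D).Finite ∧ (CS D).ncard = (R.powerset.filter fun T =>
      SolG D.natAbs.primeFactors fun p => if p ∈ T then 1 else 0).card := by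
  set S := D.natAbs.primeFactors with hSdef
  have hS : ∀ q ∈ S, q.Prime := fun q hq => Nat.prime_of_mem_primeFactors hq
  have h2S : 2 ∉ S := by
    intro h
    have := Nat.dvd_of_mem_primeFactors h
    omega
  have hN : ∏ q ∈ S, q = D.natAbs :=
    Nat.prod_primeFactors_of_squarefree (Int.squarefree_natAbs.2 hsq)
  have hDN : D = -((∏ q ∈ S, q : ℕ) : ℤ) := by
    rw [hN]
    omega
  have hmem : ∀ p : ℕ, p.Prime → ((p : ℤ) ∣ D ↔ p ∈ S) := by
    intro p hp
    rw [hDN, dvd_neg, Int.natCast_dvd_natCast]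
    exact dvd_prod_iff hp hS
  have hRp : ∀ T ⊆ R, ∀ q ∈ T, q.Prime := by
    intro T hT q hq
    rcases mem_insert.1 (hR (hT hq)) with h | h
    · rw [h]
      exact Nat.prime_two
    · exact hS q h
  have key : ∀ T ⊆ R, (((∏ q ∈ T, q : ℕ) : ℤ) ∈ CS D ↔
      SolG S (fun p => if p ∈ T then 1 else 0)) := by
    intro T hT
    have hT2 : T ⊆ insert 2 S := hT.trans hR
    have hTp := hRp T hT
    have hsol : SolG S (fun p => if p ∈ T then 1 else 0) ↔ ∀ (p : ℕ) [Fact p.Prime], p ∈ S →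
        H3 p D ((∏ q ∈ T, q : ℕ) : ℤ) := by
      unfold SolG
      rw [erase_eq_of_notMem h2S]
      constructor
      · intro h p _ hp
        have h3 := h p hp
        rw [if_neg h2S] at h3
        rw [hDN]
        exact (core hSQ S T hS h2S hT2 p hp).2 h3
      · intro h p hp
        have : Fact p.Prime := ⟨hS p hp⟩
        rw [if_neg h2S]
        refine (core hSQ S T hS h2S hT2 p hp).1 ?_
        rw [← hDN]
        exact h p hp
    constructor
    · intro h
      rw [hsol]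
      intro p _ hp
      have hp2 : p ≠ 2 := fun h => h2S (h ▸ hp)
      exact (h.2.2.2 p hp2).1 ((hmem p Fact.out).2 hp)
    · intro h
      refine ⟨?_, ?_, h2 T hT h, ?_⟩
      · rw [← Int.squarefree_natAbs, Int.natAbs_natCast]
        exact sqf_prod hTp
      · exact_mod_cast prod_pos fun q hq => (hTp q hq).pos
      · intro p _ hp2
        constructor
        · intro hpD
          exact hsol.1 h p ((hmem p Fact.out).1 hpD)
        · intro hpD hpd
          apply hpD
          rw [hmem p Fact.out]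
          have h3 : p ∣ ∏ q ∈ T, q := by exact_mod_cast hpd
          have h4 := (dvd_prod_iff (Fact.out : p.Prime) hTp).1 h3
          rcases mem_insert.1 (hT2 h4) with h5 | h5
          · exact absurd h5 hp2
          · exact h5
  have himg : CS D = (fun T : Finset ℕ => ((∏ q ∈ T, q : ℕ) : ℤ)) ''
      (↑(R.powerset.filter fun T => SolG S fun p => if p ∈ T then 1 else 0) :
        Set (Finset ℕ)) := by
    ext d
    constructor
    · intro hd
      have hsqd : Squarefree d.natAbs := Int.squarefree_natAbs.2 hd.1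
      have hprod : ∏ q ∈ d.natAbs.primeFactors, q = d.natAbs :=
        Nat.prod_primeFactors_of_squarefree hsqd
      have hdd : ((∏ q ∈ d.natAbs.primeFactors, q : ℕ) : ℤ) = d := by
        rw [hprod]
        have := hd.2.1
        omega
      have hsub : d.natAbs.primeFactors ⊆ R := by
        intro q hq
        have hqp := Nat.prime_of_mem_primeFactors hq
        have hqd : (q : ℤ) ∣ d := Int.natCast_dvd.2 (Nat.dvd_of_mem_primeFactors hq)
        by_cases hq2 : q = 2
        · by_contra hcon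
          rw [hq2] at hqd hcon
          exact h1 d hd.2.2.1 hcon (by exact_mod_cast hqd)
        · have : Fact q.Prime := ⟨hqp⟩
          apply hR'
          rw [← hmem q hqp]
          by_contra hcon
          exact (hd.2.2.2 q hq2).2 hcon hqd
      refine ⟨d.natAbs.primeFactors, ?_, hdd⟩
      rw [mem_coe, mem_filter, mem_powerset]
      refine ⟨hsub, (key _ hsub).1 ?_⟩
      rw [hdd]
      exact hd
    · rintro ⟨T, hT, rfl⟩
      rw [mem_coe, mem_filter, mem_powerset] at hT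
      exact (key T hT.1).2 hT.2
  have hinj : Set.InjOn (fun T : Finset ℕ => ((∏ q ∈ T, q : ℕ) : ℤ))
      (↑(R.powerset.filter fun T => SolG S fun p => if p ∈ T then 1 else 0) :
        Set (Finset ℕ)) := by
    intro T hT T' hT' h
    rw [mem_coe, mem_filter, mem_powerset] at hT hT'
    have h3 : ∏ q ∈ T, q = ∏ q ∈ T', q := by
      have h4 : ((∏ q ∈ T, q : ℕ) : ℤ) = ((∏ q ∈ T', q : ℕ) : ℤ) := h
      exact_mod_cast h4
    rw [← Nat.primeFactors_prod (hRp T hT.1), h3, Nat.primeFactors_prod (hRp T' hT'.1)]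
  constructor
  · rw [himg]
    exact Set.Finite.image _ (finite_toSet _)
  · rw [himg, Set.InjOn.ncard_image hinj, Set.ncard_coe_finset]

end Pool.Agent.NH57.SQ.XL.CSp

namespace Pool.Agent.NH57.SQ.XL

open Finset
open Pool.Agent.NH4.XG (nx Ram SolG)

theorem t_CSa : S_CS 1 := by
  intro hSQ D hD hsq hD4
  have hN : ∏ q ∈ D.natAbs.primeFactors, q = D.natAbs :=
    Nat.prod_primeFactors_of_squarefree (Int.squarefree_natAbs.2 hsq)
  have hR : Ram D.natAbs.primeFactors = D.natAbs.primeFactors := by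
    unfold Ram
    rw [hN, if_pos]
    omega
  have h2 : 2 ∉ D.natAbs.primeFactors := by
    intro h
    have := Nat.dvd_of_mem_primeFactors h
    omega
  unfold nx
  rw [hR]
  refine CSp.asm hSQ D hD hsq (by omega) _ (subset_insert _ _) (Subset.refl _) ?_ ?_
  · intro d hd _ h2d
    rcases hd with h | h | h <;> omega
  · intro T hT _
    left
    refine ⟨hD4, ?_⟩
    have : ¬ 2 ∣ ∏ q ∈ T, q := by
      rw [CSp.dvd_prod_iff Nat.prime_two fun q hq => Nat.prime_of_mem_primeFactors (hT hq)]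
      exact fun h => h2 (hT h)
    omega

end Pool.Agent.NH57.SQ.XL
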