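import Pool.Agent.NH57.SQ.XL.Stm
import Pool.Agent.NH57.SQ.XL.CScCore

/-!
# XS-18: the number of the classes `d₃`, `D` even
-/

set_option autoImplicit false
set_option linter.unusedVariables false

open scoped Classical

namespace Pool.Agent.NH57.SQ.XL

open Finset
open Pool.Agent.Y703.CQ (nr)
open Pool.Agent.NH4.XG (nx Ram SolG)

open scoped NumberTheorySymbols

namespace CSc94

lemma nr0 (p n : ℕ) (h : IsSquare (n : ZMod p)) : nr p n = 0 := by
  unfold nr
  exact if_pos h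

lemma nr1 (p n : ℕ) (h : ¬ IsSquare (n : ZMod p)) : nr p n = 1 := by
  unfold nr
  exact if_neg h

lemma dvd_prod {T : Finset ℕ} (hT : ∀ q ∈ T, q.Prime) {p : ℕ} (hp : p.Prime) :
    p ∣ ∏ q ∈ T, q ↔ p ∈ T := by
  rw [Prime.dvd_finsetProd_iff hp.prime]
  constructor
  · rintro ⟨a, ha, h⟩
    rcases (Nat.dvd_prime (hT a ha)).1 h with h | h
    · exact absurd h hp.one_lt.ne'
    · rwa [h]
  · intro h
    exact ⟨p, h, dvd_rfl⟩

/-- the condition `H3` and the rows of the matrix -/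
lemma h3iff (hSQ : S_SQ) {D : ℤ} (hD : D < 0) (hsq : Squarefree D) {S T : Finset ℕ}
    (hprod : ∏ p ∈ S, p = D.natAbs) (hS : ∀ q ∈ S, q.Prime) (hT : T ⊆ S) {p : ℕ}
    [Fact p.Prime] (hp2 : p ≠ 2) (hp : p ∈ S) (hsd : Squarefree ((∏ q ∈ T, q : ℕ) : ℤ)) :
    H3 p D ((∏ q ∈ T, q : ℕ) : ℤ) ↔
      ∑ q ∈ S, nr p q * ((if q ∈ T then 1 else 0) + (if p ∈ T then 1 else 0)) = 0 := by
  have hpp : p.Prime := Fact.out
  have hTp : ∀ q ∈ T, q.Prime := fun q hq => hS q (hT hq)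
  have hDabs : D = -((∏ p ∈ S, p : ℕ) : ℤ) := by rw [hprod]; omega
  have hpD : (p : ℤ) ∣ D := by
    rw [hDabs, Int.dvd_neg, Int.natCast_dvd_natCast]
    exact (dvd_prod hS hpp).2 hp
  have hdvd : ((p : ℤ) ∣ ((∏ q ∈ T, q : ℕ) : ℤ)) ↔ p ∈ T := by
    rw [Int.natCast_dvd_natCast, dvd_prod hTp hpp]
  rw [(hSQ p D _ hp2 hsq hsd hpD).2]
  by_cases hpT : p ∈ T
  · have hr := row1 nr0 nr1 hS hp hpT
    rw [if_pos (hdvd.2 hpT), hr]
    have e1 : ((∏ q ∈ T, q : ℕ) : ℤ) / p = ((∏ q ∈ T.erase p, q : ℕ) : ℤ) := by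
      rw [← mul_prod_erase T (fun q => q) hpT, Nat.cast_mul]
      exact Int.mul_ediv_cancel_left _ (by exact_mod_cast hpp.ne_zero)
    have e2 : D / p = -((∏ q ∈ S.erase p, q : ℕ) : ℤ) := by
      rw [hDabs, ← mul_prod_erase S (fun q => q) hp, Nat.cast_mul, ← mul_neg]
      exact Int.mul_ediv_cancel_left _ (by exact_mod_cast hpp.ne_zero)
    have e3 : (∏ q ∈ S.erase p, q) = (∏ q ∈ S \ T, q) * ∏ q ∈ T.erase p, q := by
      rw [← prod_union]
      · congr 1
        ext q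
        simp only [mem_erase, mem_union, mem_sdiff]
        constructor
        · rintro ⟨h1, h2⟩
          by_cases h : q ∈ T
          · exact Or.inr ⟨h1, h⟩
          · exact Or.inl ⟨h2, h⟩
        · rintro (⟨h1, h2⟩ | ⟨h1, h2⟩)
          · exact ⟨fun h => h2 (h ▸ hpT), h1⟩
          · exact ⟨h1, hT h2⟩
      · rw [disjoint_left]
        intro q hq hq'
        exact (mem_sdiff.1 hq).2 (mem_of_mem_erase hq')
    rw [e1, e2, e3]
    have e4 : -(-(((∏ q ∈ S \ T, q) * ∏ q ∈ T.erase p, q : ℕ) : ℤ) *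
        ((∏ q ∈ T.erase p, q : ℕ) : ℤ)) = ((∏ q ∈ S \ T, q : ℕ) : ℤ) *
        (((∏ q ∈ T.erase p, q : ℕ) : ℤ) * ((∏ q ∈ T.erase p, q : ℕ) : ℤ)) := by
      rw [Nat.cast_mul]
      ring
    rw [e4, jsq]
    apply jacobiSym.ne_zero
    rw [Int.gcd_natCast_natCast]
    apply Nat.Coprime.prod_left
    intro q hq
    exact (Nat.coprime_primes (hTp q (mem_of_mem_erase hq)) hpp).2 (ne_of_mem_erase hq)
  · rw [if_neg (mt hdvd.1 hpT), row0 nr0 nr1 hS hT hp hpT]

/-- the main equivalence -/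
lemma main (hSQ : S_SQ) {D : ℤ} (hD : D < 0) (hsq : Squarefree D) (hD4 : D % 4 = 2)
    {S T : Finset ℕ} (hprod : ∏ p ∈ S, p = D.natAbs) (hS : ∀ q ∈ S, q.Prime)
    (h2S : 2 ∈ S) (hT : T ⊆ S) :
    ((∏ q ∈ T, q : ℕ) : ℤ) ∈ CS D ↔ SolG S fun p => if p ∈ T then 1 else 0 := by
  have hTp : ∀ q ∈ T, q.Prime := fun q hq => hS q (hT hq)
  have hDabs : D = -((∏ p ∈ S, p : ℕ) : ℤ) := by rw [hprod]; omega
  have hsd : Squarefree ((∏ q ∈ T, q : ℕ) : ℤ) := by
    refine Squarefree.squarefree_of_dvd ?_ hsq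
    rw [hDabs, Int.dvd_neg, Int.natCast_dvd_natCast]
    exact prod_dvd_prod_of_subset T S (fun p => p) hT
  have hpD : ∀ p : ℕ, p.Prime → ((p : ℤ) ∣ D ↔ p ∈ S) := by
    intro p hp
    rw [hDabs, Int.dvd_neg, Int.natCast_dvd_natCast, dvd_prod hS hp]
  have hpd : ∀ p : ℕ, p.Prime → ((p : ℤ) ∣ ((∏ q ∈ T, q : ℕ) : ℤ) ↔ p ∈ T) := by
    intro p hp
    rw [Int.natCast_dvd_natCast, dvd_prod hTp hp]
  constructor
  · rintro ⟨-, -, -, h⟩
    intro p hp
    rw [if_pos h2S, add_zero]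
    have hpS := mem_of_mem_erase hp
    have : Fact p.Prime := ⟨hS p hpS⟩
    exact (h3iff hSQ hD hsq hprod hS hT (ne_of_mem_erase hp) hpS hsd).1
      ((h p (ne_of_mem_erase hp)).1 ((hpD p (hS p hpS)).2 hpS))
  · intro h
    have hrow : ∀ p ∈ S, p ≠ 2 →
        ∑ q ∈ S, nr p q * ((if q ∈ T then 1 else 0) + (if p ∈ T then 1 else 0)) = 0 := by
      intro p hp hp2
      have h1 := h p (mem_erase.2 ⟨hp2, hp⟩)
      rwa [if_pos h2S, add_zero] at h1
    refine ⟨hsd, ?_, ?_, ?_⟩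
    · have : 0 < ∏ q ∈ T, q := prod_pos fun q hq => (hTp q hq).pos
      exact_mod_cast this
    · right
      right
      refine ⟨by omega, ?_⟩
      obtain ⟨d0, hd0⟩ : ∃ d0, d0 = ∏ q ∈ T.erase 2, q := ⟨_, rfl⟩
      obtain ⟨e, he⟩ : ∃ e, e = ∏ q ∈ (S \ T).erase 2, q := ⟨_, rfl⟩
      have hT0 : ∀ q ∈ T.erase 2, q.Prime := fun q hq => hTp q (mem_of_mem_erase hq)
      have hE0 : ∀ q ∈ (S \ T).erase 2, q.Prime := fun q hq =>
        hS q (mem_sdiff.1 (mem_of_mem_erase hq)).1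
      have hd0odd : d0 % 2 = 1 := by
        rcases Nat.mod_two_eq_zero_or_one d0 with h1 | h1
        · exfalso
          have h2 : 2 ∣ d0 := Nat.dvd_of_mod_eq_zero h1
          rw [hd0, dvd_prod hT0 Nat.prime_two] at h2
          simp at h2
        · exact h1
      have heodd : e % 2 = 1 := by
        rcases Nat.mod_two_eq_zero_or_one e with h1 | h1
        · exfalso
          have h2 : 2 ∣ e := Nat.dvd_of_mod_eq_zero h1
          rw [he, dvd_prod hE0 Nat.prime_two] at h2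
          simp at h2
        · exact h1
      have j1 : J(((∏ q ∈ T, q : ℕ) : ℤ) | e) = 1 := by
        rw [he]
        refine jprod hE0 fun p hp => ?_
        have hp1 := mem_sdiff.1 (mem_of_mem_erase hp)
        exact (row0 nr0 nr1 hS hT hp1.1 hp1.2).1 (hrow p hp1.1 (ne_of_mem_erase hp))
      have j2 : J(((∏ q ∈ S \ T, q : ℕ) : ℤ) | d0) = 1 := by
        rw [hd0]
        refine jprod hT0 fun p hp => ?_
        have hp1 := mem_of_mem_erase hp
        exact (row1 nr0 nr1 hS (hT hp1) hp1).1 (hrow p (hT hp1) (ne_of_mem_erase hp))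
      have hST : (∏ q ∈ T, q) * (∏ q ∈ S \ T, q) = ∏ q ∈ S, q := by
        rw [mul_comm]
        exact prod_sdiff hT
      by_cases h2T : 2 ∈ T
      · have a1 : ∏ q ∈ T, q = 2 * d0 := by
          rw [hd0]
          exact (mul_prod_erase T (fun q => q) h2T).symm
        have a2 : ∏ q ∈ S \ T, q = e := by
          rw [he, erase_eq_of_notMem]
          exact fun h => (mem_sdiff.1 h).2 h2T
        rw [a1] at j1 ⊢
        rw [a2] at j2
        refine res1 d0 e (d0 * e) rfl hd0odd heodd j2 j1 D ?_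
        rw [hDabs, ← hST, a1, a2]
        push_cast
        ring
      · have a1 : ∏ q ∈ T, q = d0 := by
          rw [hd0, erase_eq_of_notMem h2T]
        have a2 : ∏ q ∈ S \ T, q = 2 * e := by
          rw [he]
          exact (mul_prod_erase (S \ T) (fun q => q) (mem_sdiff.2 ⟨h2S, h2T⟩)).symm
        rw [a1] at j1 ⊢
        rw [a2] at j2
        refine res0 d0 e (d0 * e) rfl hd0odd heodd j2 j1 D ?_
        rw [hDabs, ← hST, a1, a2]
        push_cast
        ring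
    · intro p hpf hp2
      have hpp : p.Prime := Fact.out
      refine ⟨fun h1 => ?_, fun h1 h2 => h1 ?_⟩
      · have hpS := (hpD p hpp).1 h1
        exact (h3iff hSQ hD hsq hprod hS hT hp2 hpS hsd).2 (hrow p hpS hp2)
      · rw [hpD p hpp]
        exact hT ((hpd p hpp).1 h2)

end CSc94

theorem t_CSc : S_CS 2 := by
  intro hSQ D hD hsq hD4
  obtain ⟨S, hS⟩ : ∃ S, S = D.natAbs.primeFactors := ⟨_, rfl⟩
  have hsqn : Squarefree D.natAbs := Int.squarefree_natAbs.2 hsq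
  have hprod : ∏ p ∈ S, p = D.natAbs := by
    rw [hS]
    exact Nat.prod_primeFactors_of_squarefree hsqn
  have hprime : ∀ q ∈ S, q.Prime := by
    rw [hS]
    exact fun q hq => Nat.prime_of_mem_primeFactors hq
  have hmem : ∀ p : ℕ, p.Prime → (p ∈ S ↔ (p : ℤ) ∣ D) := by
    intro p hp
    rw [← CSc94.dvd_prod hprime hp, hprod, Int.natCast_dvd]
  have h2S : 2 ∈ S := (hmem 2 Nat.prime_two).2 (by
    have : ((2 : ℕ) : ℤ) = 2 := rfl
    rw [this]
    omega)
  have hRam : Ram S = S := by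
    unfold Ram
    rw [hprod, if_neg (by omega), insert_eq_of_mem h2S]
  have hset : CS D = (((S.powerset.filter fun T => SolG S fun p => if p ∈ T then 1 else 0).image
      fun T => ((∏ p ∈ T, p : ℕ) : ℤ) : Finset ℤ) : Set ℤ) := by
    ext d
    rw [mem_coe, mem_image]
    constructor
    · intro hd
      obtain ⟨h1, h2, h3, h4⟩ := id hd
      have hdn : Squarefree d.natAbs := Int.squarefree_natAbs.2 h1
      have hTS : d.natAbs.primeFactors ⊆ S := by
        intro p hp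
        have hpp := Nat.prime_of_mem_primeFactors hp
        have hpd := Nat.dvd_of_mem_primeFactors hp
        by_cases hp2 : p = 2
        · rw [hp2]
          exact h2S
        · have : Fact p.Prime := ⟨hpp⟩
          rw [hmem p hpp]
          by_contra hc
          exact (h4 p hp2).2 hc (Int.natCast_dvd.2 hpd)
      have hdd : ((∏ p ∈ d.natAbs.primeFactors, p : ℕ) : ℤ) = d := by
        rw [Nat.prod_primeFactors_of_squarefree hdn]
        omega
      refine ⟨d.natAbs.primeFactors, ?_, hdd⟩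
      rw [mem_filter, mem_powerset]
      refine ⟨hTS, ?_⟩
      rw [← CSc94.main hSQ hD hsq hD4 hprod hprime h2S hTS, hdd]
      exact hd
    · rintro ⟨T, hT, rfl⟩
      rw [mem_filter, mem_powerset] at hT
      exact (CSc94.main hSQ hD hsq hD4 hprod hprime h2S hT.1).2 hT.2
  rw [hset]
  refine ⟨Finset.finite_toSet _, ?_⟩
  rw [Set.ncard_coe_finset, card_image_of_injOn]
  · unfold nx
    rw [← hS, hRam]
  · intro T hT T' hT' h
    rw [mem_coe, mem_filter, mem_powerset] at hT hT'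
    have h2 : ((∏ p ∈ T, p : ℕ) : ℤ) = ((∏ p ∈ T', p : ℕ) : ℤ) := h
    have h' : ∏ p ∈ T, p = ∏ p ∈ T', p := Int.natCast_inj.1 h2
    rw [← Nat.primeFactors_prod (fun p hp => hprime p (hT.1 hp)),
      ← Nat.primeFactors_prod (fun p hp => hprime p (hT'.1 hp)), h']

end Pool.Agent.NH57.SQ.XL
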