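import Pool.Agent.NH57.SQ.XL.Stm

/-!
# XS-15: the conditions `H1`, `H3` in terms of quadratic symbols
-/

set_option autoImplicit false

open scoped Classical

namespace Pool.Agent.NH57.SQ.XL

namespace SQp

/-- an integer prime to `p` which is a square of `ℚ_p` is a square modulo `p` -/
lemma to_zmod {p : ℕ} [Fact p.Prime] {n : ℤ} (h : IsSquare (n : ℚ_[p])) :
    IsSquare (n : ZMod p) := by
  obtain ⟨x, hx⟩ := h
  have hx1 : ‖x‖ ≤ 1 := by
    have h1 : ‖x‖ * ‖x‖ ≤ 1 := by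
      rw [← norm_mul, ← hx]
      exact Padic.norm_int_le_one n
    nlinarith [norm_nonneg x]
  obtain ⟨y, hy⟩ : ∃ y : ℤ_[p], (y : ℚ_[p]) = x := ⟨⟨x, hx1⟩, rfl⟩
  have h2 : (n : ℤ_[p]) = y * y := by
    apply Subtype.ext
    rw [PadicInt.coe_mul, hy, PadicInt.coe_intCast]
    exact hx
  refine ⟨PadicInt.toZMod y, ?_⟩
  rw [← map_mul, ← h2, map_intCast]

/-- Hensel's lemma for squares -/
lemma of_zmod {p : ℕ} [Fact p.Prime] (hp2 : p ≠ 2) {n : ℤ} (hn : ¬ (p : ℤ) ∣ n)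
    (h : IsSquare (n : ZMod p)) : IsSquare (n : ℚ_[p]) := by
  obtain ⟨y, hy⟩ := h
  obtain ⟨a, rfl⟩ := ZMod.intCast_surjective y
  have h1 : (p : ℤ) ∣ a * a - n := by
    rw [← ZMod.intCast_zmod_eq_zero_iff_dvd]
    push_cast
    rw [hy]
    ring
  have ha : ¬ (p : ℤ) ∣ a := by
    intro h
    apply hn
    have h2 : (p : ℤ) ∣ a * a := Dvd.dvd.mul_right h a
    have h3 : n = a * a - (a * a - n) := by ring
    rw [h3]
    exact dvd_sub h2 h1
  have hpp : Prime (p : ℤ) := Nat.prime_iff_prime_int.1 (Fact.out : p.Prime)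
  have h2a : ¬ (p : ℤ) ∣ 2 * a := by
    intro h
    rcases hpp.dvd_or_dvd h with h2 | h2
    · have h3 : p ∣ 2 := by exact_mod_cast h2
      have := (Nat.prime_dvd_prime_iff_eq (Fact.out : p.Prime) Nat.prime_two).1 h3
      exact hp2 this
    · exact ha h2
  have h2a' : ‖((2 * a : ℤ) : ℤ_[p])‖ = 1 := by
    refine le_antisymm (PadicInt.norm_le_one _) (not_lt.1 fun h => h2a ?_)
    exact (PadicInt.norm_int_lt_one_iff_dvd _).1 h
  have hlt : ‖((a * a - n : ℤ) : ℤ_[p])‖ < 1 := (PadicInt.norm_int_lt_one_iff_dvd _).2 h1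
  have key : ∃ z : ℤ_[p], z * z = (n : ℤ_[p]) := by
    have := hensels_lemma (p := p) (F := (Polynomial.X ^ 2 - Polynomial.C (n : ℤ_[p]))) (a := (a : ℤ_[p]))
      (by
        simp only [map_sub, map_pow, Polynomial.aeval_X, Polynomial.aeval_C, Algebra.algebraMap_self,
          RingHom.id_apply, Polynomial.derivative_X_pow,
          Polynomial.derivative_C, sub_zero, map_mul, Nat.cast_ofNat]
        have e1 : (a : ℤ_[p]) ^ 2 - (n : ℤ_[p]) = ((a * a - n : ℤ) : ℤ_[p]) := by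
          push_cast; ring
        rw [e1]
        refine lt_of_lt_of_eq hlt ?_
        have e2 : (2 : ℤ_[p]) * (a : ℤ_[p]) ^ (2 - 1) = ((2 * a : ℤ) : ℤ_[p]) := by
          push_cast; ring
        rw [e2, h2a', one_pow])
    obtain ⟨z, hz, -⟩ := this
    refine ⟨z, ?_⟩
    simp only [map_sub, map_pow, Polynomial.aeval_X, Polynomial.aeval_C, Algebra.algebraMap_self,
      RingHom.id_apply] at hz
    linear_combination hz
  obtain ⟨z, hz⟩ := key
  refine ⟨(z : ℚ_[p]), ?_⟩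
  rw [← PadicInt.coe_mul, hz, PadicInt.coe_intCast]

/-- squares of `ℚ_p` prime to `p` -/
lemma iff_jac {p : ℕ} [Fact p.Prime] (hp2 : p ≠ 2) {n : ℤ} (hn : ¬ (p : ℤ) ∣ n) :
    IsSquare (n : ℚ_[p]) ↔ jacobiSym n p = 1 := by
  rw [← jacobiSym.legendreSym.to_jacobiSym]
  have h0 : ((n : ℤ) : ZMod p) ≠ 0 := by
    intro h
    exact hn ((ZMod.intCast_zmod_eq_zero_iff_dvd _ _).1 h)
  rw [legendreSym.eq_one_iff p h0]
  exact ⟨to_zmod, of_zmod hp2 hn⟩

/-- an integer that is divisible by `p` exactly once is not a square of `ℚ_p` -/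
lemma not_sq {p : ℕ} [Fact p.Prime] {n : ℤ} (hn : ¬ (p : ℤ) ∣ n) :
    ¬ IsSquare ((p * n : ℤ) : ℚ_[p]) := by
  rintro ⟨x, hx⟩
  have hn1 : ‖(n : ℚ_[p])‖ = 1 := by
    refine le_antisymm (Padic.norm_int_le_one _) (not_lt.1 fun h => hn ?_)
    exact Padic.norm_intCast_lt_one_iff.1 h
  have h1 : ‖((p * n : ℤ) : ℚ_[p])‖ = (p : ℝ)⁻¹ := by
    push_cast
    rw [norm_mul, hn1, mul_one, Padic.norm_p]
  rw [hx, norm_mul] at h1
  have hp0 : (p : ℝ) ≠ 0 := by exact_mod_cast (Fact.out : p.Prime).ne_zero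
  have hp1 : (1 : ℝ) < p := by exact_mod_cast (Fact.out : p.Prime).one_lt
  have hx0 : x ≠ 0 := by
    intro h
    rw [h, norm_zero, mul_zero] at h1
    exact inv_ne_zero hp0 h1.symm
  rw [Padic.norm_eq_zpow_neg_valuation hx0, ← zpow_add₀ hp0, ← zpow_neg_one] at h1
  have := zpow_right_injective₀ (by linarith) (by linarith) h1
  omega

lemma sq_mul_sq {p : ℕ} [Fact p.Prime] {n : ℤ} :
    IsSquare ((p * p * n : ℤ) : ℚ_[p]) ↔ IsSquare (n : ℚ_[p]) := by
  have hp0 : (p : ℚ_[p]) ≠ 0 := by exact_mod_cast (Fact.out : p.Prime).ne_zero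
  constructor
  · rintro ⟨x, hx⟩
    refine ⟨x / p, ?_⟩
    push_cast at hx
    field_simp
    linear_combination hx
  · rintro ⟨x, hx⟩
    refine ⟨p * x, ?_⟩
    push_cast
    rw [hx]
    ring

lemma sqf_div {p : ℕ} [Fact p.Prime] {D : ℤ} (hD : Squarefree D) (h : (p : ℤ) ∣ D) :
    ∃ D', D = p * D' ∧ D / p = D' ∧ ¬ (p : ℤ) ∣ D' := by
  obtain ⟨D', rfl⟩ := h
  have hpp : Prime (p : ℤ) := Nat.prime_iff_prime_int.1 (Fact.out : p.Prime)
  refine ⟨D', rfl, Int.mul_ediv_cancel_left _ hpp.ne_zero, ?_⟩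
  rintro ⟨D'', rfl⟩
  have := hD (p : ℤ) ⟨D'', by ring⟩
  exact hpp.not_isUnit this

end SQp

/-- XS-15: the conditions `H1`, `H3` in terms of quadratic symbols -/
theorem t_SQ : S_SQ := by
  intro p _ D d hp2 hD hd hpD
  have hpp : Prime (p : ℤ) := Nat.prime_iff_prime_int.1 (Fact.out : p.Prime)
  obtain ⟨D', e1, e2, h1⟩ := SQp.sqf_div hD hpD
  by_cases hpd : (p : ℤ) ∣ d
  · obtain ⟨d', e3, e4, h2⟩ := SQp.sqf_div hd hpd
    have h3 : ¬ (p : ℤ) ∣ D' * d' := fun h => (hpp.dvd_or_dvd h).elim h1 h2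
    have h3' : ¬ (p : ℤ) ∣ -(D' * d') := by rwa [dvd_neg]
    have h4 : ¬ IsSquare (d : ℚ_[p]) := by
      rw [e3]
      exact SQp.not_sq h2
    rw [if_pos hpd, if_pos hpd, e2, e4]
    constructor
    · unfold H1
      rw [or_iff_right h4, show d * D = p * p * (D' * d') by rw [e1, e3]; ring,
        SQp.sq_mul_sq, SQp.iff_jac hp2 h3]
    · unfold H3
      rw [or_iff_right h4, show -(d * D) = p * p * (-(D' * d')) by rw [e1, e3]; ring,
        SQp.sq_mul_sq, SQp.iff_jac hp2 h3']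
  · have h3 : ¬ (p : ℤ) ∣ d * D' := fun h => (hpp.dvd_or_dvd h).elim hpd h1
    have h3' : ¬ (p : ℤ) ∣ -(d * D') := by rwa [dvd_neg]
    rw [if_neg hpd, if_neg hpd]
    constructor
    · unfold H1
      rw [or_iff_left, SQp.iff_jac hp2 hpd]
      rw [show d * D = p * (d * D') by rw [e1]; ring]
      exact SQp.not_sq h3
    · unfold H3
      rw [or_iff_left, SQp.iff_jac hp2 hpd]
      rw [show -(d * D) = p * (-(d * D')) by rw [e1]; ring]
      exact SQp.not_sq h3'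

end Pool.Agent.NH57.SQ.XL
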