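import Pool.Agent.NH57.SQ.XL.Stm

/-! Project XS, TR: a square matrix and the transposed matrix have kernels of the same size. -/

set_option autoImplicit false

open scoped Classical

namespace Pool.Agent.NH57.SQ.XL

open Finset
open Pool.Agent.Y703.CQ (nr)
open Pool.Agent.NH4.XG (nx Ram SolG)

namespace TRm

/-- the number of the subsets in the kernel is the number of the elements of the kernel -/
theorem card_ker (R : Finset ℕ) (M : ℕ → ℕ → ZMod 2) :
    (R.powerset.filter fun T => ∀ q ∈ R, ∑ p ∈ T, M q p = 0).card =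
      Nat.card (LinearMap.ker (Matrix.mulVecLin (Matrix.of fun (q p : R) => M q p))) := by
  have h1 : ∀ (T : Finset ℕ), T ⊆ R → ∀ q : ℕ,
      ∑ p ∈ T, M q p = ∑ p : R, M q p * (if (p : ℕ) ∈ T then 1 else 0) := by
    intro T hT q
    rw [Finset.sum_coe_sort R (fun p => M q p * (if p ∈ T then 1 else 0))]
    simp only [mul_ite, mul_one, mul_zero]
    rw [← Finset.sum_filter, Finset.filter_mem_eq_inter, Finset.inter_eq_right.2 hT]
  have h2 : Nat.card (LinearMap.ker (Matrix.mulVecLin (Matrix.of fun (q p : R) => M q p))) =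
      ((univ : Finset (R → ZMod 2)).filter fun x =>
        x ∈ LinearMap.ker (Matrix.mulVecLin (Matrix.of fun (q p : R) => M q p))).card := by
    rw [Nat.card_eq_fintype_card, Fintype.card_subtype]
  rw [h2]
  have h01 : ∀ t : ZMod 2, t = 0 ∨ t = 1 := by decide
  refine Finset.card_bij' (fun T _ => fun p : R => if (p : ℕ) ∈ T then (1 : ZMod 2) else 0)
    (fun x _ => R.filter fun p => ∃ h : p ∈ R, x ⟨p, h⟩ = 1) ?_ ?_ ?_ ?_
  · intro T hT
    rw [Finset.mem_filter, Finset.mem_powerset] at hT
    rw [Finset.mem_filter]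
    refine ⟨Finset.mem_univ _, ?_⟩
    rw [LinearMap.mem_ker]
    ext q
    have := hT.2 q q.2
    rw [h1 T hT.1] at this
    exact this
  · intro x hx
    rw [Finset.mem_filter] at hx
    rw [Finset.mem_filter, Finset.mem_powerset]
    refine ⟨Finset.filter_subset _ _, fun q hq => ?_⟩
    rw [h1 _ (Finset.filter_subset _ _)]
    have h3 : ∑ p : R, M q p * x p = 0 := congrFun (LinearMap.mem_ker.1 hx.2) ⟨q, hq⟩
    refine (Finset.sum_congr rfl fun p _ => ?_).trans h3
    congr 1
    rcases h01 (x p) with h | h
    · rw [if_neg]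
      · exact h.symm
      · rw [Finset.mem_filter]
        rintro ⟨_, h', h''⟩
        rw [show (⟨(p : ℕ), h'⟩ : R) = p from rfl, h] at h''
        exact zero_ne_one h''
    · rw [if_pos]
      · exact h.symm
      · rw [Finset.mem_filter]
        exact ⟨p.2, p.2, h⟩
  · intro T hT
    rw [Finset.mem_filter, Finset.mem_powerset] at hT
    ext p
    rw [Finset.mem_filter]
    constructor
    · rintro ⟨h, h', h''⟩
      by_contra hc
      simp only [if_neg hc] at h''
      exact zero_ne_one h''
    · intro h
      exact ⟨hT.1 h, hT.1 h, if_pos h⟩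
  · intro x hx
    funext p
    rcases h01 (x p) with h | h
    · show (if _ then _ else _) = _
      rw [if_neg]
      · exact h.symm
      · rw [Finset.mem_filter]
        rintro ⟨_, h', h''⟩
        rw [show (⟨(p : ℕ), h'⟩ : R) = p from rfl, h] at h''
        exact zero_ne_one h''
    · show (if _ then _ else _) = _
      rw [if_pos]
      · exact h.symm
      · rw [Finset.mem_filter]
        exact ⟨p.2, p.2, h⟩

/-- the kernels of a square matrix and of the transposed matrix -/
theorem card_tr {n : Type} [Fintype n] (A : Matrix n n (ZMod 2)) :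
    Nat.card (LinearMap.ker (Matrix.mulVecLin A)) =
      Nat.card (LinearMap.ker (Matrix.mulVecLin A.transpose)) := by
  have : Fact (Nat.Prime 2) := ⟨Nat.prime_two⟩
  have h1 := LinearMap.finrank_range_add_finrank_ker (Matrix.mulVecLin A)
  have h2 := LinearMap.finrank_range_add_finrank_ker (Matrix.mulVecLin A.transpose)
  have h3 := Matrix.rank_transpose A
  unfold Matrix.rank at h3
  have h4 : Module.finrank (ZMod 2) (LinearMap.ker (Matrix.mulVecLin A)) =
      Module.finrank (ZMod 2) (LinearMap.ker (Matrix.mulVecLin A.transpose)) := by omega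
  rw [Module.natCard_eq_pow_finrank (K := ZMod 2), h4,
    ← Module.natCard_eq_pow_finrank (K := ZMod 2)]

theorem card_sw (R : Finset ℕ) (M : ℕ → ℕ → ZMod 2) :
    (R.powerset.filter fun T => ∀ q ∈ R, ∑ p ∈ T, M p q = 0).card =
      (R.powerset.filter fun T => ∀ q ∈ R, ∑ p ∈ T, M q p = 0).card := by
  rw [card_ker R M, card_tr]
  exact card_ker R (fun a b => M b a)

theorem row (S T : Finset ℕ) (hT : T ⊆ Ram S) (p : ℕ) (hp : p ∈ S) (hp2 : p ≠ 2) :
    ∑ q ∈ S, nr p q * ((if q ∈ T then (1 : ZMod 2) else 0) + (if p ∈ T then 1 else 0)) +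
      (if 2 ∈ S then 0 else nr p 2 * (if 2 ∈ T then 1 else 0)) = ∑ q ∈ T, me S p q := by
  have hd : ∀ t : ZMod 2, t + t = 0 := by decide
  have hsub : T ⊆ insert 2 S := by
    refine hT.trans ?_
    unfold Ram
    split_ifs
    · exact Finset.subset_insert _ _
    · exact subset_rfl
  have h1 : ∑ q ∈ S, nr p q * ((if q ∈ T then (1 : ZMod 2) else 0) + (if p ∈ T then 1 else 0)) =
      ∑ q ∈ S, me S p q * (if q ∈ T then 1 else 0) := by
    rw [← Finset.add_sum_erase S _ hp, ← Finset.add_sum_erase S _ hp, hd, mul_zero, zero_add]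
    simp only [mul_add, Finset.sum_add_distrib]
    rw [← Finset.sum_mul, add_comm]
    congr 1
    · congr 1
      unfold me
      rw [if_pos rfl]
    · refine Finset.sum_congr rfl fun q hq => ?_
      unfold me
      rw [if_neg (Finset.mem_erase.1 hq).1]
  have h2 : ∀ U : Finset ℕ, T ⊆ U → ∑ q ∈ U, me S p q * (if q ∈ T then 1 else 0) =
      ∑ q ∈ T, me S p q := by
    intro U hU
    simp only [mul_ite, mul_one, mul_zero]
    rw [← Finset.sum_filter, Finset.filter_mem_eq_inter, Finset.inter_eq_right.2 hU]
  rw [h1]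
  by_cases h : 2 ∈ S
  · rw [if_pos h, add_zero, h2 S (by rwa [Finset.insert_eq_of_mem h] at hsub)]
  · rw [if_neg h, ← h2 _ hsub, Finset.sum_insert h, add_comm]
    congr 2
    unfold me
    rw [if_neg (Ne.symm hp2)]

end TRm

open TRm in
theorem t_TR : S_TR := by
  intro S hS
  unfold nxT nx
  rw [card_sw (Ram S) (mM S)]
  congr 1
  refine Finset.filter_congr fun T hT => ?_
  rw [Finset.mem_powerset] at hT
  have hR : ∀ p, p ∈ Ram S → p ≠ 2 → p ∈ S := by
    intro p hp h2
    unfold Ram at hp
    split_ifs at hp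
    · exact hp
    · exact (Finset.mem_insert.1 hp).resolve_left h2
  have hR' : ∀ p, p ∈ S → p ∈ Ram S := by
    intro p hp
    unfold Ram
    split_ifs
    · exact hp
    · exact Finset.mem_insert_of_mem hp
  constructor
  · intro h p hp
    rw [Finset.mem_erase] at hp
    have h3 := h p (hR' p hp.2)
    have h4 : ∀ q, mM S p q = me S p q := fun q => by
      unfold mM
      rw [if_neg hp.1]
    simp only [h4] at h3
    exact (row S T hT p hp.2 hp.1).trans h3
  · intro h q hq
    by_cases h2 : q = 2
    · subst h2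
      have h4 : ∀ q, mM S 2 q = ∑ p' ∈ S.erase 2, me S p' q := fun q => by
        unfold mM
        rw [if_pos rfl]
      simp only [h4]
      rw [Finset.sum_comm]
      refine Finset.sum_eq_zero fun p hp => ?_
      have h5 := h p hp
      rw [Finset.mem_erase] at hp
      exact (row S T hT p hp.2 hp.1).symm.trans h5
    · have h4 : ∀ p, mM S q p = me S q p := fun p => by
        unfold mM
        rw [if_neg h2]
      simp only [h4]
      have h6 := hR q hq h2
      exact (row S T hT q h6 h2).symm.trans (h q (Finset.mem_erase.2 ⟨h2, h6⟩))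

end Pool.Agent.NH57.SQ.XL
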