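import Pool.Agent.NH57.SQ.XL.Stm2
import Pool.Agent.XR.Leg
import Pool.Agent.NH3.XE.Gen

/-!
# Project XS: the norms and the kernel of the Redei matrix
-/

set_option autoImplicit false

open scoped Classical

namespace Pool.Agent.NH57.SQ.XL

open Finset
open Pool.Agent.Y703.CQ (nr)
open Pool.Agent.Z700 (pr)
open Pool.Agent.XR (Rn Nm)
open Pool.Agent.XW (gen pe md)
open Pool.Agent.NH4.XG (nx Ram SolG)
open Pool.Agent.NH3.XD (prod_jac)
open Pool.Agent.NH3.XE (sb sb_add sb_one jac_pr jac_de tb prod_div)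

namespace NM68

theorem key0 {N D : Finset ℕ} (hN : ∀ p ∈ N, p.Prime ∧ p ≠ 2) (hD : D ⊆ N) {p : ℕ} (hp : p ∈ N) :
    XV.gen N D p = 1 ↔
      ∑ q ∈ N, nr p q * ((if q ∈ D then (1 : ZMod 2) else 0) + if p ∈ D then 1 else 0) = 0 := by
  unfold XV.gen
  by_cases h : p ∈ D
  · rw [if_pos h, prod_jac (hN p hp).1 (hN p hp).2 (N \ D) fun q hq =>
      ⟨(hN q (mem_sdiff.1 hq).1).1, fun hqp => (mem_sdiff.1 hq).2 (hqp ▸ h)⟩]
    have e : ∑ q ∈ N, nr p q * ((if q ∈ D then (1 : ZMod 2) else 0) + if p ∈ D then 1 else 0) =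
        ∑ q ∈ N \ D, nr p q := by
      rw [← sum_sdiff hD]
      have e1 : ∑ q ∈ D, nr p q * ((if q ∈ D then (1 : ZMod 2) else 0) + if p ∈ D then 1 else 0) =
          0 := by
        refine sum_eq_zero fun q hq => ?_
        rw [if_pos hq, if_pos h]
        have : (1 : ZMod 2) + 1 = 0 := rfl
        rw [this, mul_zero]
      rw [e1, add_zero]
      refine sum_congr rfl fun q hq => ?_
      rw [if_neg (mem_sdiff.1 hq).2, if_pos h, zero_add, mul_one]
    rw [e]
    split_ifs with h3 <;> simp [h3]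
  · rw [if_neg h, prod_jac (hN p hp).1 (hN p hp).2 D fun q hq =>
      ⟨(hN q (hD hq)).1, fun hqp => h (hqp ▸ hq)⟩]
    have e : ∑ q ∈ N, nr p q * ((if q ∈ D then (1 : ZMod 2) else 0) + if p ∈ D then 1 else 0) =
        ∑ q ∈ D, nr p q := by
      rw [← sum_sdiff hD]
      have e1 : ∑ q ∈ N \ D, nr p q *
          ((if q ∈ D then (1 : ZMod 2) else 0) + if p ∈ D then 1 else 0) = 0 := by
        refine sum_eq_zero fun q hq => ?_
        rw [if_neg (mem_sdiff.1 hq).2, if_neg h, add_zero, mul_zero]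
      rw [e1, zero_add]
      refine sum_congr rfl fun q hq => ?_
      rw [if_pos hq, if_neg h, add_zero, mul_one]
    rw [e]
    split_ifs with h3 <;> simp [h3]

theorem key2 {δ : ℤ} (hδ : Pool.Agent.XW.Dt δ) {S : Finset ℕ} (hS : ∀ p ∈ S, p.Prime ∧ p ≠ 2)
    {D : Finset ℕ} (hD : D ⊆ insert 2 S) {p : ℕ} (hp : p ∈ S) :
    gen δ (insert 2 S) D p = 1 ↔
      ∑ q ∈ S, nr p q * ((if q ∈ D then (1 : ZMod 2) else 0) + if p ∈ D then 1 else 0) +
        nr p 2 * ((if 2 ∈ D then (1 : ZMod 2) else 0) + tb δ * if p ∈ D then 1 else 0) = 0 := by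
  have h2S : (2 : ℕ) ∉ S := fun h => (hS 2 h).2 rfl
  have hNp : ∀ p ∈ insert 2 S, p.Prime := fun p hp => by
    rcases mem_insert.1 hp with rfl | h
    · exact Nat.prime_two
    · exact (hS p h).1
  have hpp := (hS p hp).1
  have hp2 := (hS p hp).2
  -- the sum over `D`
  have hsD : ∑ q ∈ D.erase p, nr p q =
      ∑ q ∈ S.erase p, nr p q * (if q ∈ D then (1 : ZMod 2) else 0) +
        nr p 2 * (if 2 ∈ D then (1 : ZMod 2) else 0) := by
    have e1 : D.erase p = ((insert 2 S).erase p).filter (· ∈ D) := by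
      ext q
      simp only [mem_erase, mem_filter]
      constructor
      · rintro ⟨h1, h2⟩
        exact ⟨⟨h1, hD h2⟩, h2⟩
      · rintro ⟨⟨h1, _⟩, h2⟩
        exact ⟨h1, h2⟩
    rw [e1, sum_filter, erase_insert_of_ne hp2.symm, sum_insert (fun h => h2S (mem_of_mem_erase h)),
      add_comm]
    congr 1
    · refine sum_congr rfl fun q _ => ?_
      split_ifs <;> simp
    · split_ifs <;> simp
  have hpS : ∀ f : ℕ → ZMod 2, ∑ q ∈ S, nr p q * f q = ∑ q ∈ S.erase p, nr p q * f q := by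
    intro f
    rw [← add_sum_erase S _ hp]
    have : nr p p = 0 := by
      unfold nr
      rw [if_pos]
      rw [ZMod.natCast_self]
      exact ⟨0, by simp⟩
    rw [this, zero_mul, zero_add]
  have hne : ∀ T : Finset ℕ, (∀ q ∈ T, q.Prime) → ∀ q ∈ T.erase p, q.Prime ∧ q ≠ p :=
    fun T hT q hq => ⟨hT q (mem_of_mem_erase hq), ne_of_mem_erase hq⟩
  have hDp : ∀ q ∈ D, q.Prime := fun q hq => hNp q (hD hq)
  unfold gen
  by_cases h : p ∈ D
  · rw [if_pos h, prod_div h hpp.pos (fun l => l) rfl]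
    have e2 : pe δ (insert 2 S) / p = δ.natAbs * ∏ l ∈ S.erase p, l := by
      unfold pe
      rw [prod_div (mem_insert_of_mem hp) hpp.pos (md δ) (by unfold md; rw [if_neg hp2]),
        erase_insert_of_ne hp2.symm, prod_insert (fun h => h2S (mem_of_mem_erase h))]
      congr 1
      refine prod_congr rfl fun l hl => ?_
      unfold md
      rw [if_neg (hS l (mem_of_mem_erase hl)).2]
    rw [e2]
    push_cast
    rw [jacobiSym.mul_left, jacobiSym.mul_left]
    have e3 := jac_pr hpp hp2 (D.erase p) (hne D hDp)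
    have e4 := jac_pr hpp hp2 (S.erase p) (hne S fun q hq => (hS q hq).1)
    have e5 := jac_de hδ hpp hp2
    push_cast at e3 e4 e5
    rw [e3, e4, e5, ← sb_add, ← sb_add, sb_one, hpS, if_pos h, mul_one, hsD]
    have e6 : ∑ q ∈ S.erase p, nr p q * ((if q ∈ D then (1 : ZMod 2) else 0) + 1) =
        ∑ q ∈ S.erase p, nr p q * (if q ∈ D then (1 : ZMod 2) else 0) + ∑ q ∈ S.erase p, nr p q := by
      rw [← sum_add_distrib]
      refine sum_congr rfl fun q _ => ?_
      rw [mul_add, mul_one]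
    rw [e6]
    have e7 : ∀ a b c d e : ZMod 2, a + c * d + (c * e + b) = a + b + c * (d + e) := fun a b c d e => by
      ring
    rw [e7]
  · rw [if_neg h]
    have e3 := jac_pr hpp hp2 D (fun q hq => ⟨hDp q hq, fun hqp => h (hqp ▸ hq)⟩)
    have e4 : D.erase p = D := erase_eq_of_notMem h
    rw [e4] at hsD
    rw [e3, sb_one, hpS, if_neg h, mul_zero, add_zero, hsD]
    simp only [add_zero]

theorem pt {n : ℕ} (hn : Squarefree n) {D : Finset ℕ} (hD : D ⊆ Rn n) :
    Nm n D ↔ SolG n.primeFactors (fun p => if p ∈ D then 1 else 0) := by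
  obtain ⟨S, hS⟩ : ∃ S, S = n.primeFactors := ⟨_, rfl⟩
  have hpr : ∏ p ∈ S, p = n := by
    rw [hS]
    exact Nat.prod_primeFactors_of_squarefree hn
  have hSp : ∀ p ∈ S, p.Prime := by
    intro p hp
    rw [hS] at hp
    exact Nat.prime_of_mem_primeFactors hp
  have h4 : n % 4 ≠ 0 := by
    intro h
    have h5 : 2 * 2 ∣ n := by omega
    have := hn 2 h5
    rw [Nat.isUnit_iff] at this
    omega
  have h0 : n ≠ 0 := fun h => h4 (by rw [h])
  have hRn : Rn n = if n % 4 = 1 then insert 2 S else S := by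
    rw [hS]
    rfl
  rw [← hS]
  by_cases h2 : 2 ∈ S
  · -- `n` is even
    have hev : n % 2 = 0 := by
      rw [hS] at h2
      have := Nat.dvd_of_mem_primeFactors h2
      omega
    rw [hRn, if_neg (by omega)] at hD
    obtain ⟨S', hS'⟩ : ∃ S', S' = S.erase 2 := ⟨_, rfl⟩
    have hins : S = insert 2 S' := by
      rw [hS']
      exact (insert_erase h2).symm
    have hSo : ∀ p ∈ S', p.Prime ∧ p ≠ 2 := by
      intro p hp
      rw [hS'] at hp
      exact ⟨hSp p (mem_of_mem_erase hp), ne_of_mem_erase hp⟩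
    have h2S' : 2 ∉ S' := fun h => (hSo 2 h).2 rfl
    have hpe : pe 8 S / 4 = n := by
      rw [XR.Leg.pe_eq 8 h2, ← hpr, ← mul_prod_erase S (fun p => p) h2]
      have : (8 : ℤ).natAbs = 8 := rfl
      rw [this]
      omega
    have h := XR.even_case (δ := 8) (Or.inr (Or.inl rfl)) h2 hSp hD
    rw [hpe] at h
    unfold Nm SolG
    rw [h, ← hS']
    refine forall₂_congr fun p hp => ?_
    have h5 := key2 (δ := 8) (Or.inr (Or.inl rfl)) hSo (D := D) (by rw [← hins]; exact hD) hp
    rw [← hins] at h5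
    rw [h5, if_pos h2, add_zero]
    beta_reduce
    conv_rhs => rw [hins, sum_insert h2S']
    have e : tb 8 = 1 := rfl
    rw [e, one_mul, add_comm]
  · have hSo : ∀ p ∈ S, p.Prime ∧ p ≠ 2 := fun p hp => ⟨hSp p hp, fun h => h2 (h ▸ hp)⟩
    have hodd : n % 2 = 1 := by
      by_contra h
      refine h2 ?_
      rw [hS, Nat.mem_primeFactors]
      exact ⟨Nat.prime_two, by omega, h0⟩
    by_cases h1 : n % 4 = 1
    · rw [hRn, if_pos h1] at hD
      have hpe : pe (-4) (insert 2 S) / 4 = n := by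
        rw [XR.Leg.pe_eq (-4) (mem_insert_self 2 S), erase_insert h2, hpr]
        have : (-4 : ℤ).natAbs = 4 := rfl
        rw [this]
        omega
      have h := XR.even_case (δ := -4) (Or.inl rfl) (mem_insert_self 2 S)
        (fun p hp => by
          rcases mem_insert.1 hp with rfl | hp
          · exact Nat.prime_two
          · exact hSp p hp) hD
      rw [hpe, erase_insert h2] at h
      unfold Nm SolG
      rw [h, erase_eq_of_notMem h2]
      refine forall₂_congr fun p hp => ?_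
      rw [key2 (δ := -4) (Or.inl rfl) hSo hD hp, if_neg h2]
      have e : tb (-4) = 0 := rfl
      rw [e, zero_mul, add_zero]
    · rw [hRn, if_neg h1] at hD
      have h := XR.odd_case hSo hD
      have hp' : pr S = n := hpr
      rw [hp'] at h
      unfold Nm SolG
      rw [show (∏ p ∈ D, p : ℕ) = pr D from rfl, h, erase_eq_of_notMem h2]
      refine forall₂_congr fun p hp => ?_
      rw [key0 hSo hD hp, if_neg h2]
      beta_reduce
      rw [if_neg (fun h => h2 (hD h)), mul_zero, add_zero]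

theorem ram_eq {n : ℕ} (hn : Squarefree n) : Ram n.primeFactors = Rn n := by
  have hpr : ∏ p ∈ n.primeFactors, p = n := Nat.prod_primeFactors_of_squarefree hn
  have h4 : n % 4 ≠ 0 := by
    intro h
    have h5 : 2 * 2 ∣ n := by omega
    have := hn 2 h5
    rw [Nat.isUnit_iff] at this
    omega
  have h0 : n ≠ 0 := fun h => h4 (by rw [h])
  unfold Ram Rn
  rw [hpr]
  by_cases h3 : n % 4 = 3
  · rw [if_pos h3, if_neg (by omega)]
  · rw [if_neg h3]
    split_ifs with h1
    · rfl
    · refine insert_eq_of_mem ?_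
      rw [Nat.mem_primeFactors]
      exact ⟨Nat.prime_two, by omega, h0⟩

end NM68

/-- **NM** -/
theorem t_NM : S_NM := by
  intro n hn
  unfold nx
  rw [NM68.ram_eq hn]
  refine congrArg card ?_
  ext D
  rw [mem_filter, mem_filter]
  exact and_congr_right fun hD => NM68.pt hn (mem_powerset.1 hD)

end Pool.Agent.NH57.SQ.XL
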