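import Pool.Agent.NH57.SQ.XL.Stm2
import Pool.Agent.XR.Cl

/-!
# Project XS: the four-rank of imaginary quadratic fields and norms
-/

set_option autoImplicit false
set_option linter.unusedSectionVars false

open scoped Classical

namespace Pool.Agent.NH57.SQ.XL

open NumberField Ideal nonZeroDivisors
open Pool.Agent.XR
open Pool.Agent.H471R2

namespace R4

variable {K : Type} [Field K] [NumberField K] {n : ℕ} (Q : Qd K n)

/-- the class of the square root of the product -/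
noncomputable def fc (P : Finset ℕ → Ideal (𝓞 K)) (D : Finset ℕ) : ClassGroup (𝓞 K) :=
  if h : P D ≠ ⊥ then cl (P D) h else 1

theorem fc_eq {P : Finset ℕ → Ideal (𝓞 K)} {D : Finset ℕ} (h : P D ≠ ⊥) :
    fc P D = cl (P D) h := dif_pos h

variable {P : Finset ℕ → Ideal (𝓞 K)}
  (hP : ∀ D, D ⊆ Rn n → P D ^ 2 = span {((∏ p ∈ D, p : ℕ) : 𝓞 K)})

include hP in
theorem P_ne {D : Finset ℕ} (hD : D ⊆ Rn n) : P D ≠ ⊥ := root_ne (prod_ne hD) (hP D hD)

include hP in
theorem fc_sq {D : Finset ℕ} (hD : D ⊆ Rn n) : fc P D ^ 2 = 1 := by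
  rw [fc_eq (P_ne hP hD), sq, ← cl_mul, cl_eq_one_iff]
  refine ⟨((∏ p ∈ D, p : ℕ) : 𝓞 K), by exact_mod_cast prod_ne hD, ?_⟩
  rw [← sq, hP D hD]

include Q hP in
theorem nm_iff {D : Finset ℕ} (hD : D ⊆ Rn n) : Nm n D ↔ ∃ b, b ^ 2 = fc P D := by
  have hN : absNorm (P D) = ∏ p ∈ D, p := absNorm_root Q (hP D hD)
  rw [fc_eq (P_ne hP hD)]
  constructor
  · rintro ⟨x, y, hxy⟩
    rw [← hN] at hxy
    exact Q.sq_of_norm (P_ne hP hD) hxy
  · rintro ⟨b, hb⟩
    obtain ⟨I, hI, rfl⟩ := cl_surj b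
    have h2 := Q.norm_of_sq hI (P_ne hP hD) hb
    rw [hN] at h2
    exact h2

theorem prod_symm (D D' : Finset ℕ) : (∏ p ∈ D, p) * (∏ p ∈ D', p) =
    (∏ p ∈ symmDiff D D', p) * (∏ p ∈ D ∩ D', p) ^ 2 := by
  have h1 : (∏ p ∈ D, p) = (∏ p ∈ D \ D', p) * (∏ p ∈ D ∩ D', p) := by
    rw [mul_comm, Finset.prod_inter_mul_prod_sdiff]
  have h2 : (∏ p ∈ D', p) = (∏ p ∈ D' \ D, p) * (∏ p ∈ D ∩ D', p) := by
    rw [mul_comm, Finset.inter_comm, Finset.prod_inter_mul_prod_sdiff]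
  have h3 : (∏ p ∈ symmDiff D D', p) = (∏ p ∈ D \ D', p) * (∏ p ∈ D' \ D, p) := by
    rw [show symmDiff D D' = (D \ D') ∪ (D' \ D) from rfl, Finset.prod_union]
    exact disjoint_sdiff_sdiff
  rw [h1, h2, h3]
  ring

theorem symm_sub {D D' : Finset ℕ} (hD : D ⊆ Rn n) (hD' : D' ⊆ Rn n) : symmDiff D D' ⊆ Rn n := by
  intro p hp
  rw [Finset.mem_symmDiff] at hp
  rcases hp with ⟨h, -⟩ | ⟨h, -⟩
  · exact hD h
  · exact hD' h

include hP in
theorem P_mul {D D' : Finset ℕ} (hD : D ⊆ Rn n) (hD' : D' ⊆ Rn n) :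
    P D * P D' = P (symmDiff D D') * span {((∏ p ∈ D ∩ D', p : ℕ) : 𝓞 K)} := by
  apply ideal_sq_inj
  rw [mul_pow, mul_pow, hP D hD, hP D' hD', hP _ (symm_sub hD hD'), Ideal.span_singleton_pow,
    Ideal.span_singleton_mul_span_singleton, Ideal.span_singleton_mul_span_singleton]
  congr 2
  have := congrArg (fun z : ℕ => (z : 𝓞 K)) (prod_symm D D')
  simpa using this

include hP in
theorem fc_mul {D D' : Finset ℕ} (hD : D ⊆ Rn n) (hD' : D' ⊆ Rn n) :
    fc P D * fc P D' = fc P (symmDiff D D') := by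
  have hW : (∏ p ∈ D ∩ D', p) ≠ 0 := prod_ne (n := n) (Finset.inter_subset_left.trans hD)
  have hE := P_ne hP (symm_sub hD hD')
  rw [fc_eq (P_ne hP hD), fc_eq (P_ne hP hD'), fc_eq hE, ← cl_mul,
    cl_congr' (P_mul hP hD hD') _ (mul_ne_zero hE (span_nat_ne hW)),
    cl_mul _ _ hE (span_nat_ne hW), cl_span (by exact_mod_cast hW), mul_one]

include Q hP in
theorem fc_pf (hn : Squarefree n) (hn0 : n ≠ 0) (hpf : n.primeFactors ⊆ Rn n) :
    fc P n.primeFactors = 1 := by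
  rw [fc_eq (P_ne hP hpf), cl_eq_one_iff]
  have hs0 : Q.s ≠ 0 := by
    intro h
    have := Q.ss
    rw [h, mul_zero] at this
    have h5 : (n : 𝓞 K) = 0 := by linear_combination this
    exact hn0 (by exact_mod_cast h5)
  refine ⟨Q.s, hs0, ?_⟩
  apply ideal_sq_inj
  rw [hP _ hpf, Nat.prod_primeFactors_of_squarefree hn, Ideal.span_singleton_pow, sq, Q.ss,
    Ideal.span_singleton_neg]

include Q hP in
theorem fc_one (hn : Squarefree n) (h1n : 1 < n) (h3 : n ≠ 3) {E : Finset ℕ} (hE : E ⊆ Rn n)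
    (h : fc P E = 1) : E = ∅ ∨ E = n.primeFactors := by
  rw [fc_eq (P_ne hP hE), cl_eq_one_iff] at h
  obtain ⟨α, -, hα⟩ := h
  exact Q.principal_root hn h1n h3 hE (hP E hE) hα

end R4

open R4 in
theorem r4_core (n : ℕ) (hn : Squarefree n) (h1n : 1 < n) (h3 : n ≠ 3)
    (K : Type) [Field K] [NumberField K] (Q : Qd K n) :
    2 * Nat.card (G4 K) = ((Rn n).powerset.filter fun D => Nm n D).card := by
  have hn0 : n ≠ 0 := by omega
  have hpf : n.primeFactors ⊆ Rn n := by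
    unfold Rn
    split_ifs
    · exact Finset.subset_insert _ _
    · exact Finset.Subset.refl _
  have hpf0 : n.primeFactors ≠ ∅ := (Nat.nonempty_primeFactors.2 h1n).ne_empty
  choose! P hP using fun D (hD : D ⊆ Rn n) => Q.exists_roots hn hD
  set T : Finset (ClassGroup (𝓞 K)) :=
    Finset.univ.filter fun c => c ^ 2 = 1 ∧ ∃ b, b ^ 2 = c with hT
  have hcard : Nat.card (G4 K) = T.card := by
    rw [hT, ← Fintype.card_subtype, ← Nat.card_eq_fintype_card]
    rfl
  rw [hcard, Finset.card_eq_sum_card_fiberwise (f := fc P) (t := T)]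
  · rw [Finset.sum_congr rfl (g := fun _ => 2), Finset.sum_const, smul_eq_mul, mul_comm]
    intro c hc
    obtain ⟨hc2, b, hb⟩ := (Finset.mem_filter.1 hc).2
    obtain ⟨D₀, J, hJ0, hD₀, hJ, hcJ⟩ := Q.order_two hn0 hc2
    have hJP : J = P D₀ := by
      apply ideal_sq_inj
      rw [hJ, hP D₀ hD₀]
    have hfD₀ : fc P D₀ = c := by
      rw [fc_eq (P_ne hP hD₀), hcJ]
      exact (cl_congr' hJP _ _).symm
    have hD₁ : symmDiff D₀ n.primeFactors ⊆ Rn n := symm_sub hD₀ hpf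
    have hfD₁ : fc P (symmDiff D₀ n.primeFactors) = c := by
      rw [← fc_mul hP hD₀ hpf, fc_pf Q hP hn hn0 hpf, mul_one, hfD₀]
    have hne : D₀ ≠ symmDiff D₀ n.primeFactors := by
      intro h
      apply hpf0
      have h1 : symmDiff D₀ (symmDiff D₀ n.primeFactors) = symmDiff D₀ D₀ := by rw [← h]
      rw [symmDiff_symmDiff_cancel_left, symmDiff_self] at h1
      exact h1
    have hset : (((Rn n).powerset.filter fun D => Nm n D).filter fun D => fc P D = c) =
        {D₀, symmDiff D₀ n.primeFactors} := by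
      ext D
      rw [Finset.mem_filter, Finset.mem_filter, Finset.mem_powerset, Finset.mem_insert,
        Finset.mem_singleton]
      constructor
      · rintro ⟨⟨hD, -⟩, hDc⟩
        have h1 : fc P (symmDiff D₀ D) = 1 := by
          rw [← fc_mul hP hD₀ hD, hfD₀, hDc, ← sq, hc2]
        rcases fc_one Q hP hn h1n h3 (symm_sub hD₀ hD) h1 with h | h
        · left
          have h2 : symmDiff D₀ (symmDiff D₀ D) = symmDiff D₀ ∅ := by rw [h]
          rw [symmDiff_symmDiff_cancel_left] at h2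
          rw [h2]
          exact symmDiff_bot D₀
        · right
          have h2 : symmDiff D₀ (symmDiff D₀ D) = symmDiff D₀ n.primeFactors := by rw [h]
          rwa [symmDiff_symmDiff_cancel_left] at h2
      · rintro (h | h)
        · subst h
          exact ⟨⟨hD₀, (nm_iff Q hP hD₀).2 ⟨b, by rw [hb, hfD₀]⟩⟩, hfD₀⟩
        · subst h
          exact ⟨⟨hD₁, (nm_iff Q hP hD₁).2 ⟨b, by rw [hb, hfD₁]⟩⟩, hfD₁⟩
    rw [hset, Finset.card_pair hne]
  · intro D hD
    have hD' := Finset.mem_filter.1 (Finset.mem_coe.1 hD)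
    have hDR := Finset.mem_powerset.1 hD'.1
    rw [Finset.mem_coe, hT, Finset.mem_filter]
    exact ⟨Finset.mem_univ _, fc_sq hP hDR, (nm_iff Q hP hDR).1 hD'.2⟩

theorem t_R4 : S_R4 := by
  intro n hn h1n h3 K _ _ hK ⟨a, ha⟩
  obtain ⟨Q⟩ := exists_qd hK (by omega : 0 < n) (a := a) (by rw [ha]; push_cast; rfl)
  exact r4_core n hn h1n h3 K Q

end Pool.Agent.NH57.SQ.XL
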