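import Mathlib
import Pool.Agent.NH4.XG.Stm

/-!
# Project SQ (helper57): the two factors of project XS, light version of `NH3/XS/Stm.lean` (definitions verbatim)
-/

set_option autoImplicit false
set_option linter.unusedVariables false

open scoped Classical

namespace Pool.Agent.NH57.SQ.XL

open Finset
open Pool.Agent.Y703.CQ (nr)
open Pool.Agent.NH4.XG (nx Ram SolG)

/-! ### the local conditions -/

/-- the classes of `x` at `2`: the group `{1, D}`, and `{1, 5}` for `D = 1` modulo `4` -/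
def A2 (D d : ℤ) : Prop :=
  (D % 4 = 1 ∧ d % 4 = 1) ∨
  (D % 4 ≠ 1 ∧ (d % 8 = 1 ∨ (D % 2 = 1 ∧ d % 8 = D % 8) ∨ (D % 2 = 0 ∧ d % 16 = D % 16)))

/-- the classes of `x - 25 D` at `2`: the norms from `ℚ₂(√D)`, and the units for `D = 1` modulo `4` -/
def C2 (D d : ℤ) : Prop :=
  (D % 4 = 1 ∧ d % 2 = 1) ∨ (D % 4 = 3 ∧ (d % 4 = 1 ∨ (d + D - 1) % 8 = 0)) ∨
  (D % 2 = 0 ∧ (d % 8 = 1 ∨ (d + D - 1) % 8 = 0 ∨ (d + D) % 16 = 0 ∨ (d + D - 4) % 16 = 0))

/-- the class of `d` is `1` or `D` -/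
def H1 (p : ℕ) [Fact p.Prime] (D d : ℤ) : Prop :=
  IsSquare (d : ℚ_[p]) ∨ IsSquare ((d * D : ℤ) : ℚ_[p])

/-- the class of `d` is `1` or `-D` -/
def H3 (p : ℕ) [Fact p.Prime] (D d : ℤ) : Prop :=
  IsSquare (d : ℚ_[p]) ∨ IsSquare ((-(d * D) : ℤ) : ℚ_[p])

/-- a nonzero integer which is a square in `ℚ₂` -/
def Sq2 (n : ℤ) : Prop := ∃ (k : ℕ) (u : ℤ), n = 4 ^ k * u ∧ u % 8 = 1

/-- SQ2: squares in `ℚ₂` -/
def S_SQ2 : Prop := ∀ [Fact (Nat.Prime 2)] (n : ℤ), n ≠ 0 → (IsSquare (n : ℚ_[2]) ↔ Sq2 n)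

/-! ### the two factors -/

/-- the classes `d₁` -/
def AS (D : ℤ) : Set ℤ := {d | Squarefree d ∧ A2 D d ∧ ∀ (p : ℕ) [Fact p.Prime], p ≠ 2 →
  ((p : ℤ) ∣ D → H1 p D d) ∧ (¬ (p : ℤ) ∣ D → ¬ (p : ℤ) ∣ d)}

/-- the classes `d₃` -/
def CS (D : ℤ) : Set ℤ := {d | Squarefree d ∧ 0 < d ∧ C2 D d ∧ ∀ (p : ℕ) [Fact p.Prime], p ≠ 2 →
  ((p : ℤ) ∣ D → H3 p D d) ∧ (¬ (p : ℤ) ∣ D → ¬ (p : ℤ) ∣ d)}

/-- SQ: the conditions `H1`, `H3` in terms of quadratic symbols -/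
def S_SQ : Prop := ∀ (p : ℕ) [Fact p.Prime] (D d : ℤ), p ≠ 2 → Squarefree D → Squarefree d →
  (p : ℤ) ∣ D →
  (H1 p D d ↔ if (p : ℤ) ∣ d then jacobiSym ((D / p) * (d / p)) p = 1 else jacobiSym d p = 1) ∧
  (H3 p D d ↔ if (p : ℤ) ∣ d then jacobiSym (-((D / p) * (d / p))) p = 1 else jacobiSym d p = 1)

/-- CS: the number of the classes `d₃` -/
def S_CS (c : ℤ) : Prop := S_SQ → ∀ D : ℤ, D < 0 → Squarefree D → D % 4 = c →
  (CS D).Finite ∧ (CS D).ncard = nx D.natAbs.primeFactors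

/-- the entries of the Redei matrix, the row of the odd prime `p` -/
noncomputable def me (S : Finset ℕ) (p q : ℕ) : ZMod 2 :=
  if q = p then ∑ q' ∈ S.erase p, nr p q' else nr p q

/-- the Redei matrix, the row of `2` is the sum of the other rows -/
noncomputable def mM (S : Finset ℕ) (p q : ℕ) : ZMod 2 :=
  if p = 2 then ∑ p' ∈ S.erase 2, me S p' q else me S p q

/-- the number of the elements of the kernel of the transposed matrix -/
noncomputable def nxT (S : Finset ℕ) : ℕ :=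
  ((Ram S).powerset.filter fun T => ∀ q ∈ Ram S, ∑ p ∈ T, mM S p q = 0).card

/-- TR: a square matrix and the transposed matrix have kernels of the same size -/
def S_TR : Prop := ∀ S : Finset ℕ, (∀ p ∈ S, p.Prime) → nxT S = nx S

/-- `p* = ± p = 1` modulo `4` -/
def ps (q : ℕ) : ℤ := if q % 4 = 1 then q else -q

/-- the factors of the discriminant; `∏ psh D q = D`, `q` in `Ram` -/
noncomputable def psh (D : ℤ) (q : ℕ) : ℤ :=
  if q = 2 then (if D % 2 = 1 then -1 else D / ∏ p ∈ D.natAbs.primeFactors.erase 2, ps p) else ps q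

/-- AS: the number of the classes `d₁` -/
def S_AS (c : ℤ) : Prop := S_SQ → ∀ D : ℤ, D < 0 → Squarefree D → D % 4 = c →
  (AS D).Finite ∧ (AS D).ncard = nxT D.natAbs.primeFactors

end Pool.Agent.NH57.SQ.XL
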